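import Pool.Agent.H19.JP.Tip

/-!
In every cylinder, the normalised shortest vector changes on a set of positive proportion.
-/

set_option autoImplicit false

namespace Pool.Agent.H19.JP

open MeasureTheory Set

/-- the words which are extended over the level `N` -/
def VV (w : List (ℕ × ℕ)) (N : ℝ) : Set (List (ℕ × ℕ)) :=
  {v | w <+: v ∧ adw v ∧ ((st v).1.1 : ℝ) < N}

/-- the points of a cylinder for which the next denominator is at least `N` -/
def SV (N : ℝ) (v : List (ℕ × ℕ)) : Set (ℝ × ℝ) :=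
  {x ∈ cyl v | N ≤ (convs x (v.length + 1)).1.1}

/-- the letters -/
noncomputable def LV (N : ℝ) (v : List (ℕ × ℕ)) : Finset (ℕ × ℕ) :=
  Finset.Ico 1 ⌈N / (st v).1.1⌉₊ ×ˢ Finset.Ico ⌈N / (st v).1.1⌉₊ (2 * ⌈N / (st v).1.1⌉₊)

/-- the good part -/
def GV (N : ℝ) (v : List (ℕ × ℕ)) : Set (ℝ × ℝ) :=
  ⋃ l ∈ LV N v, cyl (v ++ [l, (2, 3)])

lemma st_two (v : List (ℕ × ℕ)) (l : ℕ × ℕ) :
    st (v ++ [l, (2, 3)]) = step (2, 3) (step l (st v)) := by
  rw [st_append]; rfl

lemma mem_cyl_append {v u : List (ℕ × ℕ)} {x : ℝ × ℝ} (hx : x ∈ cyl (v ++ u)) :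
    x ∈ cyl v ∧ convs x v.length = st v := by
  obtain ⟨h1, h2⟩ := hx
  rw [List.length_append, wd_add] at h2
  have h3 : wd x v.length = v := (List.append_inj h2 (wd_length _ _)).1
  exact ⟨⟨h1, h3⟩, by rw [convs_eq, h3]⟩

lemma adw_two {v : List (ℕ × ℕ)} (hv : adw v) {l : ℕ × ℕ} (h1 : 1 ≤ l.1) (h2 : l.1 < l.2) :
    adw (v ++ [l, (2, 3)]) := by
  apply adw_append hv
  · refine ⟨⟨by omega, h2.le, fun h => by omega⟩, ⟨by norm_num, by norm_num, fun h => by simp at h⟩,
      trivial⟩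
  · intro l' hl'
    simp only [List.head?_cons, Option.mem_def, Option.some.injEq] at hl'
    rw [← hl']; exact h1

/-- the denominators of the good words -/
lemma q_two {v : List (ℕ × ℕ)} (hv : adw v) {N : ℝ} (hN : ((st v).1.1 : ℝ) < N) {l : ℕ × ℕ}
    (hl : l ∈ LV N v) : 1 ≤ l.1 ∧ l.1 < l.2 ∧ N ≤ (step l (st v)).1.1 ∧
      N ≤ (st (v ++ [l, (2, 3)])).1.1 ∧ ((st (v ++ [l, (2, 3)])).1.1 : ℝ) ≤ 18 * N ∧
      ((st (v ++ [l, (2, 3)])).1.1 : ℝ) ≤ 18 * ⌈N / (st v).1.1⌉₊ * (st v).1.1 := by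
  obtain ⟨B, hB⟩ : ∃ B, B = ⌈N / (st v).1.1⌉₊ := ⟨_, rfl⟩
  have hS := good_st hv
  obtain ⟨g1, g2, g3, g4, g5, g6⟩ := hS
  have hq : (0 : ℝ) < (st v).1.1 := by exact_mod_cast g1
  have hq' : (0 : ℝ) ≤ (st v).2.1.1 := by exact_mod_cast g2
  have hq'' : (0 : ℝ) ≤ (st v).2.2.1 := by exact_mod_cast g4
  have hq'1 : ((st v).2.1.1 : ℝ) ≤ (st v).1.1 := by exact_mod_cast g3
  have hq''1 : ((st v).2.2.1 : ℝ) ≤ (st v).1.1 := by exact_mod_cast g5
  unfold LV at hl
  rw [← hB] at hl ⊢
  rw [Finset.mem_product, Finset.mem_Ico, Finset.mem_Ico] at hl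
  obtain ⟨⟨l1, l2⟩, ⟨l3, l4⟩⟩ := hl
  have hB1 : N / (st v).1.1 ≤ B := by rw [hB]; exact Nat.le_ceil _
  have hB2 : (B : ℝ) < N / (st v).1.1 + 1 := by
    rw [hB]; exact Nat.ceil_lt_add_one (div_nonneg (by linarith) hq.le)
  rw [div_le_iff₀ hq] at hB1
  have hB3 : (B : ℝ) * (st v).1.1 < N + (st v).1.1 := by
    have : N / (st v).1.1 * (st v).1.1 = N := div_mul_cancel₀ _ hq.ne'
    nlinarith
  have lb : (B : ℝ) ≤ l.2 := by exact_mod_cast l3
  have lb2 : (l.2 : ℝ) + 1 ≤ 2 * B := by exact_mod_cast l4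
  have la : (l.1 : ℝ) + 1 ≤ B := by exact_mod_cast l2
  have la0 : (0 : ℝ) ≤ l.1 := by positivity
  have hl2 : 1 ≤ l.2 := by omega
  have e1 : ((step l (st v)).1.1 : ℝ) = l.2 * (st v).1.1 + l.1 * (st v).2.1.1 + (st v).2.2.1 := by
    rw [step_q]; push_cast; ring
  have hs1 : N ≤ (step l (st v)).1.1 := by
    rw [e1]
    nlinarith [mul_nonneg la0 hq', mul_le_mul_of_nonneg_right lb hq.le]
  have hs2 : ((step l (st v)).1.1 : ℝ) ≤ 3 * (B * (st v).1.1) - (st v).1.1 := by
    rw [e1]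
    have a1 : (l.2 : ℝ) * (st v).1.1 ≤ (2 * B - 1) * (st v).1.1 := by
      apply mul_le_mul_of_nonneg_right _ hq.le; linarith
    have a2 : (l.1 : ℝ) * (st v).2.1.1 ≤ (B - 1) * (st v).1.1 := by
      apply mul_le_mul _ hq'1 hq' _
      · linarith
      · linarith
    nlinarith
  have hgood1 := (good_st hv).step hl2
  have hm := q_mono hgood1 (l := (2, 3)) (by norm_num)
  have hm1 : ((step l (st v)).1.1 : ℝ) ≤ (st (v ++ [l, (2, 3)])).1.1 := by
    rw [st_two]; exact_mod_cast hm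
  have e2 : ((st (v ++ [l, (2, 3)])).1.1 : ℝ) =
      3 * (step l (st v)).1.1 + 2 * (st v).1.1 + (st v).2.1.1 := by
    rw [st_two, step_q]; push_cast; rfl
  refine ⟨l1, by omega, hs1, hs1.trans hm1, ?_, ?_⟩
  · rw [e2]; nlinarith
  · rw [e2]
    nlinarith [mul_nonneg (show (0 : ℝ) ≤ B by positivity) hq.le]

/-- **one step** -/
lemma one_step {v : List (ℕ × ℕ)} (hv : adw v) {N : ℝ} (hN : ((st v).1.1 : ℝ) < N) :
    ENNReal.ofReal (1 / 1889568) * volume (SV N v) ≤ volume (GV N v) := by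
  classical
  have hS := good_st hv
  obtain ⟨g1, g2, g3, g4, g5, g6⟩ := hS
  obtain ⟨q, hqd⟩ : ∃ q : ℝ, q = (st v).1.1 := ⟨_, rfl⟩
  have hq : (0 : ℝ) < q := by rw [hqd]; exact_mod_cast g1
  have hq'1 : ((st v).2.1.1 : ℝ) ≤ q := by rw [hqd]; exact_mod_cast g3
  have hq''1 : ((st v).2.2.1 : ℝ) ≤ q := by rw [hqd]; exact_mod_cast g5
  have hq' : (0 : ℝ) ≤ (st v).2.1.1 := by exact_mod_cast g2
  rw [← hqd] at hN
  have hN0 : 0 < N := by linarith
  -- upper bound
  have hup : volume (SV N v) ≤ ENNReal.ofReal (3 / (q ^ 2 * N)) := by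
    have hsub : SV N v ⊆ {x ∈ cyl v | T^[v.length] x ∈ {t : ℝ × ℝ | t.1 ≤ 3 * q / N}} := by
      rintro x ⟨hx1, hx2⟩
      refine ⟨hx1, ?_⟩
      obtain ⟨hx3, hx4⟩ := hx1
      obtain ⟨t, ht⟩ : ∃ t, t = T^[v.length] x := ⟨_, rfl⟩
      have hta : Adm t := by rw [ht]; exact hx3.iter _
      have hc : convs x (v.length + 1) = step (dig t) (st v) := by
        rw [ht, ← hx4, ← convs_eq, wd_length]
        rfl
      rw [hc] at hx2
      have e1 : ((step (dig t) (st v)).1.1 : ℝ) =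
          (dig t).2 * q + (dig t).1 * (st v).2.1.1 + (st v).2.2.1 := by
        rw [step_q, hqd]; push_cast; ring
      rw [e1] at hx2
      obtain ⟨d1, d2, d3⟩ := hta.dig_valid
      have d1' : (1 : ℝ) ≤ (dig t).2 := by exact_mod_cast d1
      have d2' : ((dig t).1 : ℝ) ≤ (dig t).2 := by exact_mod_cast d2
      have h5 : N ≤ 3 * ((dig t).2 * q) := by
        have a1 : ((dig t).1 : ℝ) * (st v).2.1.1 ≤ (dig t).2 * q := by gcongr
        have a2 : q ≤ (dig t).2 * q := by nlinarith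
        linarith
      have h6 : ((dig t).2 : ℝ) ≤ 1 / t.1 := by
        unfold dig
        exact Nat.floor_le (by have := hta.1; positivity)
      have h7 : ((dig t).2 : ℝ) * t.1 ≤ 1 := by
        rwa [le_div_iff₀ hta.1] at h6
      rw [mem_ofPred_eq, ← ht, le_div_iff₀ hN0]
      have ht1 := hta.1
      calc t.1 * N ≤ t.1 * (3 * ((dig t).2 * q)) := by gcongr
        _ = 3 * q * ((dig t).2 * t.1) := by ring
        _ ≤ 3 * q * 1 := by gcongr
        _ = 3 * q := mul_one _
    have hE : MeasurableSet {t : ℝ × ℝ | t.1 ≤ 3 * q / N} := measurableSet_le (by fun_prop) (by fun_prop)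
    have hvE : volume ({t : ℝ × ℝ | t.1 ≤ 3 * q / N} ∩ I2) ≤ ENNReal.ofReal (3 * q / N) := by
      calc _ ≤ volume (Ioc (0 : ℝ) (3 * q / N) ×ˢ Ioo (0 : ℝ) 1) := by
            apply measure_mono
            rintro t ⟨h1, ⟨⟨h2, h3⟩, h4⟩⟩
            exact ⟨⟨h2, h1⟩, h4⟩
        _ = _ := by
            rw [Measure.volume_eq_prod, Measure.prod_prod, Real.volume_Ioc, Real.volume_Ioo]
            simp
    calc volume (SV N v) ≤ _ := measure_mono hsub
      _ ≤ ENNReal.ofReal (1 / ((st v).1.1 : ℝ) ^ 3) *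
          volume ({t : ℝ × ℝ | t.1 ≤ 3 * q / N} ∩ I2) := cyl_le v hE
      _ ≤ ENNReal.ofReal (1 / q ^ 3) * ENNReal.ofReal (3 * q / N) := by
          rw [← hqd]; gcongr
      _ = _ := by
          rw [← ENNReal.ofReal_mul (by positivity)]
          congr 1
          field_simp
  -- lower bound
  obtain ⟨B, hB⟩ : ∃ B, B = ⌈N / (st v).1.1⌉₊ := ⟨_, rfl⟩
  have hBr : (B : ℝ) < N / q + 1 := by
    rw [hB, hqd]; exact Nat.ceil_lt_add_one (by rw [← hqd]; positivity)
  have hNq : 1 < N / q := by rw [lt_div_iff₀ hq]; linarith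
  have hB1 : N / q ≤ B := by rw [hB, hqd]; exact Nat.le_ceil _
  have hB2 : 2 ≤ B := by
    have : (1 : ℝ) < B := by linarith
    have : 1 < B := by exact_mod_cast this
    omega
  have hB2r : (2 : ℝ) ≤ B := by exact_mod_cast hB2
  have hdisj : PairwiseDisjoint (LV N v : Set (ℕ × ℕ)) (fun l => cyl (v ++ [l, (2, 3)])) := by
    intro l _ l' _ hne
    rw [Function.onFun, Set.disjoint_left]
    rintro x ⟨h1, h2⟩ ⟨h3, h4⟩
    apply hne
    have h5 : (v ++ [l, (2, 3)]).length = (v ++ [l', (2, 3)]).length := by simp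
    rw [h5, h4] at h2
    have h6 := List.append_cancel_left h2
    simp only [List.cons.injEq, and_true] at h6
    exact h6.symm
  have hlow : ENNReal.ofReal (1 / (629856 * (q ^ 2 * N))) ≤ volume (GV N v) := by
    unfold GV
    rw [measure_biUnion_finset hdisj (fun l _ => measurableSet_cyl _)]
    calc ENNReal.ofReal (1 / (629856 * (q ^ 2 * N)))
        ≤ ENNReal.ofReal (((B - 1) * B) * (1 / (27 * (18 * B * q) ^ 3))) := by
          apply ENNReal.ofReal_le_ofReal
          have hB3 : (B : ℝ) * q ≤ 2 * N := by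
            have : (B : ℝ) ≤ 2 * (N / q) := by linarith
            calc (B : ℝ) * q ≤ 2 * (N / q) * q := by gcongr
              _ = 2 * N := by field_simp
          have h1 : (B : ℝ) / 2 ≤ B - 1 := by linarith
          have hB0 : (0 : ℝ) < B := by linarith
          calc 1 / (629856 * (q ^ 2 * N)) ≤ 1 / (314928 * (q ^ 2 * (B * q))) := by
                apply one_div_le_one_div_of_le (by positivity)
                nlinarith [mul_le_mul_of_nonneg_left hB3 (show 0 ≤ q ^ 2 by positivity)]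
            _ = ((B / 2) * B) * (1 / (27 * (18 * B * q) ^ 3)) := by
                field_simp
                ring
            _ ≤ _ := by gcongr
      _ = ∑ _l ∈ LV N v, ENNReal.ofReal (1 / (27 * (18 * B * q) ^ 3)) := by
          rw [Finset.sum_const, nsmul_eq_mul]
          unfold LV
          rw [← hB, Finset.card_product, Nat.card_Ico, Nat.card_Ico,
            ENNReal.ofReal_mul (by nlinarith)]
          congr 1
          rw [← ENNReal.ofReal_natCast]
          congr 1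
          have h2 : 2 * B - B = B := by omega
          rw [h2]
          push_cast [Nat.cast_sub (show 1 ≤ B by omega)]
          ring
      _ ≤ ∑ l ∈ LV N v, volume (cyl (v ++ [l, (2, 3)])) := by
          apply Finset.sum_le_sum
          intro l hl
          obtain ⟨k1, k2, k3, k4, k5, k6⟩ := q_two hv (by rw [← hqd]; exact hN) hl
          have hadw := adw_two hv k1 k2
          refine le_trans ?_ (le_cyl_of_last hadw ?_)
          · apply ENNReal.ofReal_le_ofReal
            have hq2 : (0 : ℝ) < (st (v ++ [l, (2, 3)])).1.1 := by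
              exact_mod_cast (good_st hadw).1
            rw [← hB, ← hqd] at k6
            apply one_div_le_one_div_of_le (by positivity)
            gcongr
          · intro l' hl'
            simp only [List.getLast?_append, List.getLast?_cons_cons, List.getLast?_singleton,
              Option.some_or, Option.mem_def, Option.some.injEq] at hl'
            rw [← hl']; norm_num
  calc ENNReal.ofReal (1 / 1889568) * volume (SV N v)
      ≤ ENNReal.ofReal (1 / 1889568) * ENNReal.ofReal (3 / (q ^ 2 * N)) := by gcongr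
    _ = ENNReal.ofReal (1 / (629856 * (q ^ 2 * N))) := by
        rw [← ENNReal.ofReal_mul (by norm_num)]
        congr 1
        field_simp
        norm_num
    _ ≤ _ := hlow

end Pool.Agent.H19.JP
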