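import Pool.Agent.H19.JP.Lat

/-!
Counting primitive integer vectors whose modular lattice contains a given vector.
-/

set_option autoImplicit false

namespace Pool.Agent.H19.JP

open Finset

/-- integers of a residue class in an interval -/
lemma card_congr (S : Finset ℤ) (m : ℤ) (hm : 0 < m) (L : ℝ) (hL : 0 ≤ L)
    (h : ∀ a ∈ S, ∀ b ∈ S, (a : ℝ) - b ≤ L) (hc : ∀ a ∈ S, ∀ b ∈ S, m ∣ a - b) :
    (S.card : ℝ) ≤ L / m + 1 := by
  classical
  have hm' : (0 : ℝ) < m := by exact_mod_cast hm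
  rcases S.eq_empty_or_nonempty with rfl | hne
  · simp only [Finset.card_empty, Nat.cast_zero]
    positivity
  · obtain ⟨a0, ha0⟩ : ∃ a0, a0 = S.min' hne := ⟨_, rfl⟩
    have h0 : a0 ∈ S := by rw [ha0]; exact S.min'_mem hne
    have hsub : S ⊆ (Finset.range (⌊L / m⌋₊ + 1)).image (fun k : ℕ => a0 + m * k) := by
      intro a ha
      have h1 : a0 ≤ a := by rw [ha0]; exact S.min'_le a ha
      obtain ⟨k, hk⟩ := hc a ha a0 h0
      have hk0 : 0 ≤ k := by
        by_contra hcon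
        push Not at hcon
        have : m * k < 0 := mul_neg_of_pos_of_neg hm hcon
        omega
      obtain ⟨n, rfl⟩ : ∃ n : ℕ, k = n := ⟨k.toNat, (Int.toNat_of_nonneg hk0).symm⟩
      rw [Finset.mem_image]
      refine ⟨n, ?_, by rw [← hk]; ring⟩
      rw [Finset.mem_range, Nat.lt_succ_iff]
      apply Nat.le_floor
      rw [le_div_iff₀ hm']
      have h2 := h a ha a0 h0
      have h3 : ((a - a0 : ℤ) : ℝ) = m * n := by rw [hk]; push_cast; ring
      push_cast at h3
      linarith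
    calc (S.card : ℝ) ≤ ((Finset.range (⌊L / m⌋₊ + 1)).image (fun k : ℕ => a0 + m * k)).card := by
          exact_mod_cast Finset.card_le_card hsub
      _ ≤ (Finset.range (⌊L / m⌋₊ + 1)).card := by exact_mod_cast Finset.card_image_le
      _ = ⌊L / m⌋₊ + 1 := by rw [Finset.card_range]; push_cast; ring
      _ ≤ L / m + 1 := by
          have := Nat.floor_le (show 0 ≤ L / m by positivity)
          linarith

lemma card_fiber {α β : Type*} [DecidableEq β] (S : Finset α) (f : α → β) {A B : ℝ} (hB : 0 ≤ B)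
    (h : ∀ b ∈ S.image f, ((S.filter (fun a => f a = b)).card : ℝ) ≤ B)
    (hA : ((S.image f).card : ℝ) ≤ A) : (S.card : ℝ) ≤ A * B := by
  rw [Finset.card_eq_sum_card_image f S]
  push_cast
  calc ∑ b ∈ S.image f, ((S.filter (fun a => f a = b)).card : ℝ) ≤ ∑ _b ∈ S.image f, B :=
        Finset.sum_le_sum h
    _ = (S.image f).card * B := by rw [Finset.sum_const, nsmul_eq_mul]
    _ ≤ A * B := by gcongr

/-- **primitive vectors in a small cone orthogonal to `(c, -y, x)` for some `c`** -/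
lemma card_fixed (x y : ℤ) (hx : x ≠ 0) (hyx : |y| ≤ |x|) (δ len N : ℝ) (hδ : 0 ≤ δ)
    (hlen : 0 ≤ len) (hN : 0 ≤ N) (F : Finset (ℤ × ℤ × ℤ))
    (h1 : ∀ P ∈ F, 0 < P.1 ∧ (P.1 : ℝ) ≤ N)
    (h2 : ∀ P ∈ F, ∀ P' ∈ F, (P.1 : ℝ) - P'.1 ≤ len)
    (h3 : ∀ P ∈ F, ∀ P' ∈ F, |(P.2.1 : ℝ) / P.1 - P'.2.1 / P'.1| ≤ δ)
    (h4 : ∀ P ∈ F, ∀ P' ∈ F, |(P.2.2 : ℝ) / P.1 - P'.2.2 / P'.1| ≤ δ)
    (h5 : ∀ P ∈ F, ∃ c, y * P.2.1 - x * P.2.2 = c * P.1 ∧
      ∀ d : ℤ, d ∣ x → d ∣ y → d ∣ c → d ∣ 1) :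
    (F.card : ℝ) ≤ (2 * |(x : ℝ)| * δ + 1) * (len * (N * δ) / |(x : ℝ)| + len + N * δ + 1) := by
  classical
  have hxR : (0 : ℝ) < |(x : ℝ)| := abs_pos.mpr (by exact_mod_cast hx)
  obtain ⟨cc, hcc⟩ : ∃ cc : ℤ × ℤ × ℤ → ℤ, ∀ P, cc P = (y * P.2.1 - x * P.2.2) / P.1 :=
    ⟨_, fun _ => rfl⟩
  have hcc1 : ∀ P ∈ F, y * P.2.1 - x * P.2.2 = cc P * P.1 ∧
      ∀ d : ℤ, d ∣ x → d ∣ y → d ∣ cc P → d ∣ 1 := by
    intro P hP
    obtain ⟨c, hc1, hc2⟩ := h5 P hP
    have : cc P = c := by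
      rw [hcc, hc1, Int.mul_ediv_cancel _ (h1 P hP).1.ne']
    rw [this]
    exact ⟨hc1, hc2⟩
  obtain ⟨x', y', g, hg, hcop, hx', hy'⟩ : ∃ x' y' g : ℤ, 0 < g ∧ IsCoprime x' y' ∧
      x = g * x' ∧ y = g * y' := by
    have hg : (0 : ℤ) < Int.gcd x y := by
      exact_mod_cast Int.gcd_pos_of_ne_zero_left y hx
    obtain ⟨x', hx'⟩ := Int.gcd_dvd_left x y
    obtain ⟨y', hy'⟩ := Int.gcd_dvd_right x y
    refine ⟨x', y', Int.gcd x y, hg, ?_, hx', hy'⟩
    refine ⟨Int.gcdA x y, Int.gcdB x y, ?_⟩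
    have := Int.gcd_eq_gcd_ab x y
    apply mul_left_cancel₀ hg.ne'
    calc (Int.gcd x y : ℤ) * (Int.gcdA x y * x' + Int.gcdB x y * y')
        = (Int.gcd x y * x') * Int.gcdA x y + (Int.gcd x y * y') * Int.gcdB x y := by ring
      _ = x * Int.gcdA x y + y * Int.gcdB x y := by rw [← hx', ← hy']
      _ = Int.gcd x y * 1 := by rw [← this]; ring
  have hx'0 : x' ≠ 0 := by
    rintro rfl; exact hx (by rw [hx', mul_zero])
  have hgR : (1 : ℝ) ≤ g := by exact_mod_cast hg
  have hx'R : (1 : ℝ) ≤ |(x' : ℝ)| := by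
    have : (1 : ℤ) ≤ |x'| := Int.one_le_abs hx'0
    exact_mod_cast this
  have hxx : |(x : ℝ)| = g * |(x' : ℝ)| := by
    rw [hx']; push_cast
    rw [abs_mul, abs_of_pos (by linarith : (0 : ℝ) < g)]
  -- the innermost count
  have k3 : ∀ c q : ℤ, ((((F.filter (fun P => cc P = c)).filter (fun P => P.1 = q))).card : ℝ) ≤
      N * δ / |(x' : ℝ)| + 1 := by
    intro c q
    obtain ⟨F2, hF2⟩ : ∃ F2, F2 = (F.filter (fun P => cc P = c)).filter (fun P => P.1 = q) :=
      ⟨_, rfl⟩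
    rw [← hF2]
    have hm : ∀ P ∈ F2, P ∈ F ∧ cc P = c ∧ P.1 = q := by
      intro P hP
      rw [hF2, Finset.mem_filter, Finset.mem_filter] at hP
      exact ⟨hP.1.1, hP.1.2, hP.2⟩
    have hinj : F2.card = (F2.image (fun P => P.2.1)).card := by
      rw [Finset.card_image_of_injOn]
      intro P hP P' hP' he
      obtain ⟨m1, m2, m3⟩ := hm P hP
      obtain ⟨n1, n2, n3⟩ := hm P' hP'
      have e1 := (hcc1 P m1).1
      have e2 := (hcc1 P' n1).1
      simp only at he
      rw [m2, m3] at e1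
      rw [n2, n3, ← he] at e2
      have e3 : P.2.2 = P'.2.2 := by
        apply mul_left_cancel₀ hx
        linear_combination e2 - e1
      ext
      · rw [m3, n3]
      · exact he
      · exact e3
    rw [hinj]
    have habs : |(x' : ℝ)| = ((|x'| : ℤ) : ℝ) := by push_cast; rfl
    rw [habs]
    apply card_congr _ _ (abs_pos.mpr hx'0) _ (by positivity)
    · intro a ha b hb
      rw [Finset.mem_image] at ha hb
      obtain ⟨P, hP, rfl⟩ := ha
      obtain ⟨P', hP', rfl⟩ := hb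
      obtain ⟨m1, m2, m3⟩ := hm P hP
      obtain ⟨n1, n2, n3⟩ := hm P' hP'
      have e1 := (abs_le.mp (h3 P m1 P' n1)).2
      rw [n3, m3, ← sub_div] at e1
      have hq : (0 : ℝ) < q := by
        have := (h1 P m1).1
        rw [m3] at this
        exact_mod_cast this
      have hq2 : (q : ℝ) ≤ N := by
        have := (h1 P m1).2
        rw [m3] at this
        exact this
      rw [div_le_iff₀ hq] at e1
      calc (P.2.1 : ℝ) - P'.2.1 ≤ δ * q := e1
        _ ≤ δ * N := by gcongr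
        _ = N * δ := mul_comm _ _
    · intro a ha b hb
      rw [Finset.mem_image] at ha hb
      obtain ⟨P, hP, rfl⟩ := ha
      obtain ⟨P', hP', rfl⟩ := hb
      obtain ⟨m1, m2, m3⟩ := hm P hP
      obtain ⟨n1, n2, n3⟩ := hm P' hP'
      have e1 := (hcc1 P m1).1
      have e2 := (hcc1 P' n1).1
      rw [m2, m3] at e1
      rw [n2, n3] at e2
      rw [abs_dvd]
      apply hcop.dvd_of_dvd_mul_left
      refine ⟨P.2.2 - P'.2.2, ?_⟩
      apply mul_left_cancel₀ hg.ne'
      rw [hx', hy'] at e1 e2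
      linear_combination e1 - e2
  -- the middle count
  have k2 : ∀ c : ℤ, ((F.filter (fun P => cc P = c)).card : ℝ) ≤
      (len / g + 1) * (N * δ / |(x' : ℝ)| + 1) := by
    intro c
    apply card_fiber _ (fun P => P.1) (by positivity)
    · intro q _
      exact k3 c q
    · apply card_congr _ g hg _ hlen
      · intro a ha b hb
        rw [Finset.mem_image] at ha hb
        obtain ⟨P, hP, rfl⟩ := ha
        obtain ⟨P', hP', rfl⟩ := hb
        rw [Finset.mem_filter] at hP hP'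
        exact h2 P hP.1 P' hP'.1
      · have key : ∀ P ∈ F.filter (fun P => cc P = c), g ∣ P.1 := by
          intro P hP
          rw [Finset.mem_filter] at hP
          obtain ⟨e1, e2⟩ := hcc1 P hP.1
          have hcg : IsCoprime g (cc P) := by
            rw [Int.isCoprime_iff_gcd_eq_one]
            have h6 : ((Int.gcd g (cc P) : ℕ) : ℤ) ∣ 1 := by
              apply e2
              · rw [hx']; exact (Int.gcd_dvd_left _ _).mul_right _
              · rw [hy']; exact (Int.gcd_dvd_left _ _).mul_right _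
              · exact Int.gcd_dvd_right _ _
            have h7 : (Int.gcd g (cc P) : ℕ) ∣ 1 := by exact_mod_cast h6
            exact Nat.dvd_one.mp h7
          apply hcg.dvd_of_dvd_mul_left
          rw [← e1, hx', hy']
          exact ⟨y' * P.2.1 - x' * P.2.2, by ring⟩
        intro a ha b hb
        rw [Finset.mem_image] at ha hb
        obtain ⟨P, hP, rfl⟩ := ha
        obtain ⟨P', hP', rfl⟩ := hb
        exact dvd_sub (key P hP) (key P' hP')
  -- the outer count
  have k1 : (F.card : ℝ) ≤ (2 * |(x : ℝ)| * δ + 1) *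
      ((len / g + 1) * (N * δ / |(x' : ℝ)| + 1)) := by
    apply card_fiber F cc (by positivity)
    · intro c _
      exact k2 c
    · have := card_congr (F.image cc) 1 one_pos (2 * |(x : ℝ)| * δ) (by positivity) (by
        intro a ha b hb
        rw [Finset.mem_image] at ha hb
        obtain ⟨P, hP, rfl⟩ := ha
        obtain ⟨P', hP', rfl⟩ := hb
        have hc : ∀ P ∈ F, (cc P : ℝ) = y * (P.2.1 / P.1) - x * (P.2.2 / P.1) := by
          intro P hP
          have e1 := (hcc1 P hP).1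
          have hq : (0 : ℝ) < P.1 := by exact_mod_cast (h1 P hP).1
          have e2 : (y : ℝ) * P.2.1 - x * P.2.2 = cc P * P.1 := by exact_mod_cast e1
          field_simp
          linarith
        rw [hc P hP, hc P' hP']
        have e3 := h3 P hP P' hP'
        have e4 := h4 P hP P' hP'
        have hyR : |(y : ℝ)| ≤ |(x : ℝ)| := by exact_mod_cast hyx
        calc (y : ℝ) * (P.2.1 / P.1) - x * (P.2.2 / P.1) -
              (y * (P'.2.1 / P'.1) - x * (P'.2.2 / P'.1))
            = y * ((P.2.1 : ℝ) / P.1 - P'.2.1 / P'.1) -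
              x * ((P.2.2 : ℝ) / P.1 - P'.2.2 / P'.1) := by ring
          _ ≤ |y * ((P.2.1 : ℝ) / P.1 - P'.2.1 / P'.1)| +
              |x * ((P.2.2 : ℝ) / P.1 - P'.2.2 / P'.1)| := by
              have t1 := le_abs_self ((y : ℝ) * ((P.2.1 : ℝ) / P.1 - P'.2.1 / P'.1))
              have t2 := neg_abs_le ((x : ℝ) * ((P.2.2 : ℝ) / P.1 - P'.2.2 / P'.1))
              linarith
          _ ≤ |(x : ℝ)| * δ + |(x : ℝ)| * δ := by
              rw [abs_mul, abs_mul]
              gcongr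
          _ = 2 * |(x : ℝ)| * δ := by ring) (fun a _ b _ => one_dvd _)
      simpa using this
  refine k1.trans ?_
  apply mul_le_mul_of_nonneg_left _ (by positivity)
  have hg0 : (0 : ℝ) < g := by linarith
  have hx0 : (0 : ℝ) < |(x' : ℝ)| := by linarith
  rw [hxx]
  have e1 : (len / g + 1) * (N * δ / |(x' : ℝ)| + 1) =
      len * (N * δ) / (g * |(x' : ℝ)|) + len / g + N * δ / |(x' : ℝ)| + 1 := by
    field_simp
    ring
  rw [e1]
  have e2 : len / g ≤ len := div_le_self hlen hgR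
  have e3 : N * δ / |(x' : ℝ)| ≤ N * δ := div_le_self (by positivity) hx'R
  linarith

end Pool.Agent.H19.JP
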