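import Pool.Agent.H19.JP.Count

/-!
Counting: sums over the vectors and over the squares of a grid.
-/

set_option autoImplicit false

namespace Pool.Agent.H19.JP

open Finset MeasureTheory Filter Topology

/-- only few squares of a fine grid meet a compact set of positive measure -/
lemma exists_grid (K : Set (ℝ × ℝ)) (hK : IsCompact K) (hpos : 0 < volume K) :
    ∃ M : ℕ, 0 < M ∧ ∀ G : Finset (ℤ × ℤ),
      (∀ g ∈ G, ∃ x ∈ K, ⌊(M : ℝ) * x.1⌋ = g.1 ∧ ⌊(M : ℝ) * x.2⌋ = g.2) →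
      (G.card : ℝ) ≤ 2 * (volume K).toReal * (M : ℝ) ^ 2 := by
  classical
  have hfin : volume K ≠ ⊤ := hK.measure_lt_top.ne
  have hlim := tendsto_measure_cthickening_of_isCompact (μ := (volume : Measure (ℝ × ℝ))) hK
  have hlt : volume K < 2 * volume K := by
    rw [two_mul]
    exact ENNReal.lt_add_right hfin hpos.ne'
  have hev := hlim.eventually (gt_mem_nhds hlt)
  rw [Metric.eventually_nhds_iff] at hev
  obtain ⟨ε, hε, h⟩ := hev
  obtain ⟨M, hM⟩ := exists_nat_gt (1 / ε)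
  have hM0 : (0 : ℝ) < M := lt_trans (by positivity) hM
  have hMN : 0 < M := by exact_mod_cast hM0
  have hδ : 1 / (M : ℝ) < ε := by
    rw [div_lt_iff₀ hM0]
    rw [div_lt_iff₀ hε] at hM
    linarith
  have hvol : volume (Metric.cthickening (1 / (M : ℝ)) K) < 2 * volume K := by
    apply h
    rw [Real.dist_eq, sub_zero, abs_of_pos (by positivity)]
    exact hδ
  refine ⟨M, hMN, fun G hG => ?_⟩
  obtain ⟨Q, hQ⟩ : ∃ Q : ℤ × ℤ → Set (ℝ × ℝ), ∀ g, Q g =
    Set.Ico ((g.1 : ℝ) / M) (((g.1 : ℝ) + 1) / M) ×ˢ Set.Ico ((g.2 : ℝ) / M) (((g.2 : ℝ) + 1) / M) :=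
    ⟨_, fun _ => rfl⟩
  have hmem : ∀ g x, x ∈ Q g ↔ ⌊(M : ℝ) * x.1⌋ = g.1 ∧ ⌊(M : ℝ) * x.2⌋ = g.2 := by
    intro g x
    rw [hQ, Set.mem_prod, Set.mem_Ico, Set.mem_Ico, Int.floor_eq_iff, Int.floor_eq_iff,
      div_le_iff₀ hM0, lt_div_iff₀ hM0, div_le_iff₀ hM0, lt_div_iff₀ hM0,
      mul_comm x.1, mul_comm x.2]
  have hdisj : Set.PairwiseDisjoint (G : Set (ℤ × ℤ)) Q := by
    intro g _ g' _ hne
    rw [Function.onFun, Set.disjoint_left]
    intro x hx hx'
    rw [hmem] at hx hx'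
    apply hne
    ext
    · rw [← hx.1, ← hx'.1]
    · rw [← hx.2, ← hx'.2]
  have hQm : ∀ g, MeasurableSet (Q g) := by
    intro g
    rw [hQ]
    exact measurableSet_Ico.prod measurableSet_Ico
  have hQv : ∀ g, volume (Q g) = ENNReal.ofReal (1 / (M : ℝ) ^ 2) := by
    intro g
    rw [hQ, Measure.volume_eq_prod, Measure.prod_prod, Real.volume_Ico, Real.volume_Ico,
      ← ENNReal.ofReal_mul]
    · congr 1
      field_simp
      ring
    · rw [← sub_div]
      apply div_nonneg _ hM0.le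
      linarith
  have hsub : (⋃ g ∈ G, Q g) ⊆ Metric.cthickening (1 / (M : ℝ)) K := by
    intro x hx
    rw [Set.mem_iUnion₂] at hx
    obtain ⟨g, hg, hx⟩ := hx
    obtain ⟨y, hy, hy2⟩ := hG g hg
    have hy3 : y ∈ Q g := (hmem g y).2 hy2
    apply Metric.mem_cthickening_of_dist_le x y _ _ hy
    rw [hQ, Set.mem_prod, Set.mem_Ico, Set.mem_Ico] at hx hy3
    rw [Prod.dist_eq, max_le_iff, Real.dist_eq, Real.dist_eq, abs_le, abs_le]
    have e : ∀ a : ℝ, (a + 1) / M = a / M + 1 / M := fun a => add_div _ _ _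
    rw [e, e] at hx hy3
    refine ⟨⟨?_, ?_⟩, ⟨?_, ?_⟩⟩ <;> linarith [hx.1.1, hx.1.2, hx.2.1, hx.2.2, hy3.1.1, hy3.1.2,
      hy3.2.1, hy3.2.2]
  have h1 : (G.card : ENNReal) * ENNReal.ofReal (1 / (M : ℝ) ^ 2) ≤ 2 * volume K := by
    calc _ = ∑ g ∈ G, volume (Q g) := by
          rw [Finset.sum_congr rfl (fun g _ => hQv g), Finset.sum_const, nsmul_eq_mul]
      _ = volume (⋃ g ∈ G, Q g) := (measure_biUnion_finset hdisj (fun g _ => hQm g)).symm
      _ ≤ volume (Metric.cthickening (1 / (M : ℝ)) K) := measure_mono hsub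
      _ ≤ _ := hvol.le
  have h2 : (G.card : ℝ) * (1 / (M : ℝ) ^ 2) ≤ 2 * (volume K).toReal := by
    have h3 := ENNReal.toReal_mono (ENNReal.mul_ne_top (by norm_num) hfin) h1
    rw [ENNReal.toReal_mul, ENNReal.toReal_mul, ENNReal.toReal_natCast,
      ENNReal.toReal_ofReal (by positivity)] at h3
    simpa using h3
  rw [mul_one_div, div_le_iff₀ (by positivity)] at h2
  exact h2

/-- the box of vectors -/
noncomputable def Box (n : ℕ) : Finset (ℤ × ℤ) :=
  (((Finset.Icc (-(n : ℤ)) n).erase 0) ×ˢ (Finset.Icc (-(n : ℤ)) n)).filter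
    (fun z => |z.2| ≤ |z.1|)

lemma card_Icc_n (n : ℕ) : (Finset.Icc (-(n : ℤ)) n).card = 2 * n + 1 := by
  rw [Int.card_Icc]; omega

lemma sum_box (n : ℕ) {a b : ℝ} (ha : 0 ≤ a) (hb : 0 ≤ b) :
    ∑ z ∈ Box n, (a + b / |(z.1 : ℝ)|) ≤ a * (2 * n + 1) ^ 2 + 3 * b * (2 * n + 1) := by
  classical
  have hcard : ((Box n).card : ℝ) ≤ (2 * n + 1) ^ 2 := by
    have h1 : (Box n).card ≤ (2 * n + 1) * (2 * n + 1) := by
      calc (Box n).card ≤ (((Finset.Icc (-(n : ℤ)) n).erase 0) ×ˢ (Finset.Icc (-(n : ℤ)) n)).card :=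
            Finset.card_filter_le _ _
        _ ≤ ((Finset.Icc (-(n : ℤ)) n) ×ˢ (Finset.Icc (-(n : ℤ)) n)).card := by
            apply Finset.card_le_card
            exact Finset.product_subset_product_left (Finset.erase_subset _ _)
        _ = _ := by rw [Finset.card_product, card_Icc_n]
    have h2 : ((Box n).card : ℝ) ≤ ((2 * n + 1) * (2 * n + 1) : ℕ) := by exact_mod_cast h1
    calc _ ≤ _ := h2
      _ = _ := by push_cast; ring
  rw [Finset.sum_add_distrib, Finset.sum_const, nsmul_eq_mul]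
  have h3 : ∑ z ∈ Box n, b / |(z.1 : ℝ)| ≤ 3 * b * (2 * n + 1) := by
    unfold Box
    rw [Finset.sum_filter, Finset.sum_product]
    calc _ ≤ ∑ x ∈ (Finset.Icc (-(n : ℤ)) n).erase 0, 3 * b := by
          apply Finset.sum_le_sum
          intro x hx
          have hx0 : x ≠ 0 := Finset.ne_of_mem_erase hx
          have hxR : (1 : ℝ) ≤ |(x : ℝ)| := by
            have : (1 : ℤ) ≤ |x| := Int.one_le_abs hx0
            exact_mod_cast this
          rw [← Finset.sum_filter]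
          change ∑ _y ∈ (Finset.Icc (-(n : ℤ)) n).filter (fun y => |y| ≤ |x|), b / |(x : ℝ)| ≤ 3 * b
          rw [Finset.sum_const, nsmul_eq_mul]
          have h4 : (((Finset.Icc (-(n : ℤ)) n).filter (fun y => |y| ≤ |x|)).card : ℝ) ≤
              2 * |(x : ℝ)| + 1 := by
            have h5 : (Finset.Icc (-(n : ℤ)) n).filter (fun y => |y| ≤ |x|) ⊆
                Finset.Icc (-|x|) |x| := by
              intro y hy
              rw [Finset.mem_filter] at hy
              rw [Finset.mem_Icc]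
              exact abs_le.mp hy.2
            have h6 := Finset.card_le_card h5
            rw [Int.card_Icc] at h6
            have h7 : (((Finset.Icc (-(n : ℤ)) n).filter (fun y => |y| ≤ |x|)).card : ℤ) ≤
                2 * |x| + 1 := by
              have : 0 ≤ |x| := abs_nonneg x
              omega
            exact_mod_cast h7
          calc _ ≤ (2 * |(x : ℝ)| + 1) * (b / |(x : ℝ)|) := by gcongr
            _ ≤ (3 * |(x : ℝ)|) * (b / |(x : ℝ)|) := by
                apply mul_le_mul_of_nonneg_right _ (by positivity)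
                linarith
            _ = 3 * b := by
                have : |(x : ℝ)| ≠ 0 := by positivity
                field_simp
      _ = ((Finset.Icc (-(n : ℤ)) n).erase 0).card * (3 * b) := by
          rw [Finset.sum_const, nsmul_eq_mul]
      _ ≤ (2 * n + 1) * (3 * b) := by
          gcongr
          have := Finset.card_erase_le (s := Finset.Icc (-(n : ℤ)) n) (a := 0)
          rw [card_Icc_n] at this
          exact_mod_cast this
      _ = _ := by ring
  have h4 : ((Box n).card : ℝ) * a ≤ a * (2 * n + 1) ^ 2 := by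
    rw [mul_comm]; gcongr
  linarith

/-- **the number of the vectors of a region with a given range of shortest vectors** -/
lemma card_total (K : Set (ℝ × ℝ)) (M : ℕ) (hM : 0 < M)
    (hG : ∀ G : Finset (ℤ × ℤ),
      (∀ g ∈ G, ∃ x ∈ K, ⌊(M : ℝ) * x.1⌋ = g.1 ∧ ⌊(M : ℝ) * x.2⌋ = g.2) →
      (G.card : ℝ) ≤ 2 * (volume K).toReal * (M : ℝ) ^ 2)
    (len N : ℝ) (hlen : 0 ≤ len) (hN : 0 ≤ N) (n : ℕ) (F : Finset (ℤ × ℤ × ℤ))
    (z : ℤ × ℤ × ℤ → ℤ × ℤ)
    (h1 : ∀ P ∈ F, 0 < P.1 ∧ (P.1 : ℝ) ≤ N)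
    (hFK : ∀ P ∈ F, ((P.2.1 : ℝ) / P.1, (P.2.2 : ℝ) / P.1) ∈ K)
    (hz : ∀ P ∈ F, (z P).1 ≠ 0 ∧ |(z P).2| ≤ |(z P).1| ∧ |(z P).1| ≤ n)
    (h2 : ∀ P ∈ F, ∀ P' ∈ F, z P = z P' → (P.1 : ℝ) - P'.1 ≤ len)
    (h5 : ∀ P ∈ F, ∃ c, (z P).2 * P.2.1 - (z P).1 * P.2.2 = c * P.1 ∧
      ∀ d : ℤ, d ∣ (z P).1 → d ∣ (z P).2 → d ∣ c → d ∣ 1) :
    (F.card : ℝ) ≤ (2 * (volume K).toReal * (M : ℝ) ^ 2) *
      ((2 * (len * N) * (1 / M) ^ 2 + (2 * n * (1 / M) + 1) * (len + N * (1 / M) + 1)) *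
        (2 * n + 1) ^ 2 + 3 * (len * (N * (1 / M))) * (2 * n + 1)) := by
  classical
  have hM0 : (0 : ℝ) < M := by exact_mod_cast hM
  obtain ⟨sq, hsq⟩ : ∃ sq : ℤ × ℤ × ℤ → ℤ × ℤ, ∀ P, sq P =
      (⌊(M : ℝ) * ((P.2.1 : ℝ) / P.1)⌋, ⌊(M : ℝ) * ((P.2.2 : ℝ) / P.1)⌋) := ⟨_, fun _ => rfl⟩
  apply card_fiber F sq (by positivity)
  swap
  · apply hG
    intro g hg
    rw [Finset.mem_image] at hg
    obtain ⟨P, hP, rfl⟩ := hg
    exact ⟨_, hFK P hP, by rw [hsq], by rw [hsq]⟩
  · intro g _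
    obtain ⟨F1, hF1⟩ : ∃ F1, F1 = F.filter (fun P => sq P = g) := ⟨_, rfl⟩
    rw [← hF1]
    have hm : ∀ P ∈ F1, P ∈ F ∧ sq P = g := by
      intro P hP
      rw [hF1, Finset.mem_filter] at hP
      exact hP
    have himg : F1.image z ⊆ Box n := by
      intro w hw
      rw [Finset.mem_image] at hw
      obtain ⟨P, hP, rfl⟩ := hw
      obtain ⟨k1, k2, k3⟩ := hz P (hm P hP).1
      unfold Box
      rw [Finset.mem_filter, Finset.mem_product, Finset.mem_erase, Finset.mem_Icc, Finset.mem_Icc]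
      exact ⟨⟨⟨k1, abs_le.mp k3⟩, abs_le.mp (k2.trans k3)⟩, k2⟩
    have hfl : ∀ (i : ℤ) (s t : ℝ), ⌊(M : ℝ) * s⌋ = i → ⌊(M : ℝ) * t⌋ = i → |s - t| ≤ 1 / M := by
      intro i s t hs ht
      rw [Int.floor_eq_iff] at hs ht
      rw [abs_le]
      constructor
      · have : -(1 : ℝ) ≤ M * (s - t) := by nlinarith [hs.1, ht.2]
        rw [neg_le_iff_add_nonneg]
        have h6 : 0 ≤ (M * (s - t) + 1) / M := by
          apply div_nonneg _ hM0.le
          linarith
        have h7 : (M * (s - t) + 1) / M = s - t + 1 / M := by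
          field_simp
        linarith
      · rw [le_div_iff₀ hM0]
        nlinarith [hs.2, ht.1]
    have hone : ∀ w ∈ F1.image z, ((F1.filter (fun P => z P = w)).card : ℝ) ≤
        (2 * (len * N) * (1 / M) ^ 2 + (2 * n * (1 / M) + 1) * (len + N * (1 / M) + 1)) +
          (len * (N * (1 / M))) / |(w.1 : ℝ)| := by
      intro w hw
      have hwB := himg hw
      unfold Box at hwB
      rw [Finset.mem_filter, Finset.mem_product, Finset.mem_erase, Finset.mem_Icc,
        Finset.mem_Icc] at hwB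
      have hw0 : w.1 ≠ 0 := hwB.1.1.1
      have hwn : |(w.1 : ℝ)| ≤ n := by
        have : |w.1| ≤ (n : ℤ) := abs_le.mpr hwB.1.1.2
        exact_mod_cast this
      have hw1 : (1 : ℝ) ≤ |(w.1 : ℝ)| := by
        have : (1 : ℤ) ≤ |w.1| := Int.one_le_abs hw0
        exact_mod_cast this
      have hmm : ∀ P ∈ F1.filter (fun P => z P = w), P ∈ F ∧ sq P = g ∧ z P = w := by
        intro P hP
        rw [Finset.mem_filter] at hP
        exact ⟨(hm P hP.1).1, (hm P hP.1).2, hP.2⟩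
      have hc := card_fixed w.1 w.2 hw0 hwB.2 (1 / M) len N (by positivity) hlen hN
        (F1.filter (fun P => z P = w))
        (fun P hP => h1 P (hmm P hP).1)
        (fun P hP P' hP' => h2 P (hmm P hP).1 P' (hmm P' hP').1
          ((hmm P hP).2.2.trans (hmm P' hP').2.2.symm))
        (fun P hP P' hP' => by
          have e1 := (hmm P hP).2.1
          have e2 := (hmm P' hP').2.1
          rw [hsq] at e1 e2
          exact hfl g.1 _ _ (congrArg Prod.fst e1) (congrArg Prod.fst e2))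
        (fun P hP P' hP' => by
          have e1 := (hmm P hP).2.1
          have e2 := (hmm P' hP').2.1
          rw [hsq] at e1 e2
          exact hfl g.2 _ _ (congrArg Prod.snd e1) (congrArg Prod.snd e2))
        (fun P hP => by
          have e1 := h5 P (hmm P hP).1
          rw [(hmm P hP).2.2] at e1
          exact e1)
      refine hc.trans ?_
      have hw0' : |(w.1 : ℝ)| ≠ 0 := by positivity
      have e : (2 * |(w.1 : ℝ)| * (1 / M) + 1) * (len * (N * (1 / M)) / |(w.1 : ℝ)| + len +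
          N * (1 / M) + 1) = 2 * (len * N) * (1 / M) ^ 2 +
          (2 * |(w.1 : ℝ)| * (1 / M) + 1) * (len + N * (1 / M) + 1) +
          (len * (N * (1 / M))) / |(w.1 : ℝ)| := by
        field_simp
        ring
      rw [e]
      gcongr
    rw [Finset.card_eq_sum_card_image z F1]
    push_cast
    calc _ ≤ ∑ w ∈ F1.image z, ((2 * (len * N) * (1 / M) ^ 2 +
          (2 * n * (1 / M) + 1) * (len + N * (1 / M) + 1)) +
          (len * (N * (1 / M))) / |(w.1 : ℝ)|) := Finset.sum_le_sum hone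
      _ ≤ ∑ w ∈ Box n, ((2 * (len * N) * (1 / M) ^ 2 +
          (2 * n * (1 / M) + 1) * (len + N * (1 / M) + 1)) +
          (len * (N * (1 / M))) / |(w.1 : ℝ)|) :=
          Finset.sum_le_sum_of_subset_of_nonneg himg (fun w _ _ => by positivity)
      _ ≤ _ := by
          refine (sum_box n (by positivity) (by positivity)).trans (le_of_eq ?_)
          ring

end Pool.Agent.H19.JP
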