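import Pool.Agent.H19.JP.Count2

/-!
Few primitive vectors have a normalised shortest vector in a given short interval.
-/

set_option autoImplicit false

namespace Pool.Agent.H19.JP

open Finset MeasureTheory Filter Topology

lemma len_aux {s0 ε N len q q' Z : ℝ} (hs0 : 0 ≤ s0) (hε : 0 < ε)
    (hlen : len = if 2 * ε ≤ s0 then 288 * N * ε / s0 else 18 * N) (q1 : 0 < q) (q2 : 0 < q')
    (h1 : (s0 - ε) * Real.sqrt q < Z) (h2 : Z < (s0 + ε) * Real.sqrt q') (hq1 : q ≤ 18 * N)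
    (hq2 : q' ≤ 18 * N) (hq3 : N ≤ q') (hN1 : 1 ≤ N) : q - q' ≤ len := by
  rw [hlen]
  split_ifs with h
  · have hs : 0 < s0 := by linarith
    rw [le_div_iff₀ hs]
    have h3 : (s0 - ε) * Real.sqrt q < (s0 + ε) * Real.sqrt q' := h1.trans h2
    have h4 : (s0 - ε) ^ 2 * q < (s0 + ε) ^ 2 * q' := by
      have h5 : ((s0 - ε) * Real.sqrt q) ^ 2 < ((s0 + ε) * Real.sqrt q') ^ 2 := by
        apply pow_lt_pow_left₀ h3 _ (by norm_num)
        apply mul_nonneg (by linarith) (Real.sqrt_nonneg _)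
      rw [mul_pow, mul_pow, Real.sq_sqrt q1.le, Real.sq_sqrt q2.le] at h5
      exact h5
    by_cases h6 : q - q' ≤ 0
    · calc (q - q') * s0 ≤ 0 := mul_nonpos_of_nonpos_of_nonneg h6 hs.le
        _ ≤ 288 * N * ε := by positivity
    · push Not at h6
      have h7 : (q - q') * (s0 - ε) ^ 2 < 4 * s0 * ε * q' := by
        have : (q - q') * (s0 - ε) ^ 2 = (s0 - ε) ^ 2 * q - (s0 - ε) ^ 2 * q' := by ring
        rw [this]
        have : 4 * s0 * ε * q' = (s0 + ε) ^ 2 * q' - (s0 - ε) ^ 2 * q' := by ring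
        rw [this]
        linarith
      have h8 : s0 ^ 2 / 4 ≤ (s0 - ε) ^ 2 := by
        have h81 : s0 / 2 ≤ s0 - ε := by linarith
        calc s0 ^ 2 / 4 = (s0 / 2) ^ 2 := by ring
          _ ≤ (s0 - ε) ^ 2 := by gcongr
      have h9 : (q - q') * (s0 ^ 2 / 4) ≤ 4 * s0 * ε * (18 * N) := by
        calc _ ≤ (q - q') * (s0 - ε) ^ 2 := by gcongr
          _ ≤ 4 * s0 * ε * q' := h7.le
          _ ≤ _ := by gcongr
      have h10 : ((q - q') * s0) * s0 ≤ (288 * N * ε) * s0 := by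
        calc ((q - q') * s0) * s0 = 4 * ((q - q') * (s0 ^ 2 / 4)) := by ring
          _ ≤ 4 * (4 * s0 * ε * (18 * N)) := by gcongr
          _ = _ := by ring
      exact le_of_mul_le_mul_right h10 hs
  · linarith

lemma num_aux {μ m N T R len nn ε : ℝ} (hμ0 : 0 ≤ μ) (hM1 : 1 ≤ m) (hTM : 10 ^ 7 * m ^ 2 ≤ ε * T)
    (hnnR : nn ≤ R) (hnn0 : 0 ≤ nn) (hlen0 : 0 ≤ len) (hlen1 : len ≤ 144 * N)
    (hlenR : len * R ^ 2 ≤ 23328 * ε * N ^ 2) (hTT : T ^ 2 = N) (hT1 : 1 ≤ T)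
    (hR13 : R ≤ 13 * T) (hN1 : 1 ≤ N) (hε : 0 < ε) :
    (2 * μ * m ^ 2) *
      ((2 * (len * (18 * N)) * (1 / m) ^ 2 + (2 * nn * (1 / m) + 1) *
        (len + 18 * N * (1 / m) + 1)) *
        (2 * nn + 1) ^ 2 + 3 * (len * (18 * N * (1 / m))) * (2 * nn + 1)) ≤
      10 ^ 7 * ε * μ * N ^ 3 := by
  have hm0 : 0 < m := by linarith
  have A1 : (2 * μ * m ^ 2) * (2 * (len * (18 * N)) * (1 / m) ^ 2 * (2 * nn + 1) ^ 2) =
      72 * μ * N * (len * (2 * nn + 1) ^ 2) := by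
    field_simp
    ring
  have A2 : len * (2 * nn + 1) ^ 2 ≤ 5 * (len * R ^ 2) + 5 * len := by
    have h1 : (2 * nn + 1) ^ 2 ≤ 5 * R ^ 2 + 5 := by nlinarith [sq_nonneg (R - 2)]
    calc len * (2 * nn + 1) ^ 2 ≤ len * (5 * R ^ 2 + 5) := by gcongr
      _ = _ := by ring
  have hinv : 1 / m ≤ 1 := by rw [div_le_one hm0]; exact hM1
  have hinv0 : 0 ≤ 1 / m := by positivity
  have A3 : 2 * nn * (1 / m) + 1 ≤ 27 * T := by
    have : 2 * nn * (1 / m) ≤ 2 * nn * 1 := by gcongr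
    linarith
  have A4 : len + 18 * N * (1 / m) + 1 ≤ 163 * N := by
    have : 18 * N * (1 / m) ≤ 18 * N * 1 := by gcongr
    linarith
  have A5 : 2 * nn + 1 ≤ 27 * T := by linarith
  have A6 : (2 * nn + 1) ^ 2 ≤ 729 * N := by
    calc (2 * nn + 1) ^ 2 ≤ (27 * T) ^ 2 := by gcongr
      _ = 729 * N := by rw [mul_pow, hTT]; ring
  have A7 : (2 * μ * m ^ 2) * ((2 * nn * (1 / m) + 1) * (len + 18 * N * (1 / m) + 1) *
      (2 * nn + 1) ^ 2) ≤ 6416658 * (μ * m ^ 2 * N ^ 2 * T) := by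
    calc _ ≤ (2 * μ * m ^ 2) * ((27 * T) * (163 * N) * (729 * N)) := by gcongr
      _ = _ := by ring
  have A8 : (2 * μ * m ^ 2) * (3 * (len * (18 * N * (1 / m))) * (2 * nn + 1)) ≤
      419904 * (μ * m ^ 2 * N ^ 2 * T) := by
    calc _ ≤ (2 * μ * m ^ 2) * (3 * ((144 * N) * (18 * N * 1)) * (27 * T)) := by gcongr
      _ = _ := by ring
  have A9 : 72 * μ * N * (5 * len) ≤ 51840 * (μ * m ^ 2 * N ^ 2 * T) := by
    calc 72 * μ * N * (5 * len) ≤ 72 * μ * N * (5 * (144 * N)) := by gcongr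
      _ = 51840 * (μ * 1 * N ^ 2 * 1) := by ring
      _ ≤ _ := by
          gcongr
          nlinarith
  have A10 : 72 * μ * N * (5 * (len * R ^ 2)) ≤ 8398080 * (ε * μ * N ^ 3) := by
    calc _ ≤ 72 * μ * N * (5 * (23328 * ε * N ^ 2)) := by gcongr
      _ ≤ _ := by nlinarith [mul_nonneg (mul_nonneg hε.le hμ0) (show 0 ≤ N ^ 3 by positivity)]
  have A11 : 10 ^ 7 * (μ * m ^ 2 * N ^ 2 * T) ≤ ε * μ * N ^ 3 := by
    calc 10 ^ 7 * (μ * m ^ 2 * N ^ 2 * T) = (10 ^ 7 * m ^ 2) * (μ * N ^ 2 * T) := by ring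
      _ ≤ (ε * T) * (μ * N ^ 2 * T) := by gcongr
      _ = ε * μ * N ^ 2 * T ^ 2 := by ring
      _ = _ := by rw [hTT]; ring
  have A12 : 0 ≤ μ * m ^ 2 * N ^ 2 * T := by positivity
  have A13 : 72 * μ * N * (len * (2 * nn + 1) ^ 2) ≤
      72 * μ * N * (5 * (len * R ^ 2)) + 72 * μ * N * (5 * len) := by
    rw [← mul_add]
    gcongr
  have A14 : 0 ≤ ε * μ * N ^ 3 := by positivity
  calc _ = (2 * μ * m ^ 2) * (2 * (len * (18 * N)) * (1 / m) ^ 2 * (2 * nn + 1) ^ 2) +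
        (2 * μ * m ^ 2) * ((2 * nn * (1 / m) + 1) * (len + 18 * N * (1 / m) + 1) *
          (2 * nn + 1) ^ 2) +
        (2 * μ * m ^ 2) * (3 * (len * (18 * N * (1 / m))) * (2 * nn + 1)) := by ring
    _ ≤ 10 ^ 7 * (ε * μ * N ^ 3) := by rw [A1]; linarith
    _ = _ := by ring

lemma count_half (K : Set (ℝ × ℝ)) (hK : IsCompact K) (hpos : 0 < volume K) (s0 ε : ℝ)
    (hs0 : 0 ≤ s0) (hs2 : s0 ≤ 2) (hε : 0 < ε) (hε1 : ε ≤ 1) :
    ∃ N0 : ℝ, ∀ N ≥ N0, ∀ F : Finset (ℤ × ℤ × ℤ), (∀ P ∈ F, N ≤ P.1 ∧ (P.1 : ℝ) ≤ 18 * N ∧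
      ((P.2.1 : ℝ) / P.1, (P.2.2 : ℝ) / P.1) ∈ K ∧ ∃ w : ℤ × ℤ, w.1 ≠ 0 ∧ |w.2| ≤ |w.1| ∧
        (∃ c : ℤ, w.2 * P.2.1 - w.1 * P.2.2 = c * P.1 ∧
          ∀ d : ℤ, d ∣ w.1 → d ∣ w.2 → d ∣ c → d ∣ 1) ∧
        |Real.sqrt ((w.1 : ℝ) ^ 2 + (w.2 : ℝ) ^ 2) / Real.sqrt P.1 - s0| < ε) →
      (F.card : ℝ) ≤ 10 ^ 7 * ε * (volume K).toReal * N ^ 3 := by
  classical
  obtain ⟨M, hM, hG⟩ := exists_grid K hK hpos
  have hM1 : (1 : ℝ) ≤ M := by exact_mod_cast hM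
  refine ⟨max 1 ((10 ^ 7 * (M : ℝ) ^ 2 / ε) ^ 2), fun N hN F hF => ?_⟩
  have hN1 : 1 ≤ N := le_trans (le_max_left _ _) hN
  have hN2 : (10 ^ 7 * (M : ℝ) ^ 2 / ε) ^ 2 ≤ N := le_trans (le_max_right _ _) hN
  obtain ⟨T, hT⟩ : ∃ T, T = Real.sqrt N := ⟨_, rfl⟩
  have hTT : T ^ 2 = N := by rw [hT]; exact Real.sq_sqrt (by linarith)
  have hT1 : 1 ≤ T := by rw [hT]; exact Real.one_le_sqrt.mpr hN1
  have hTM : 10 ^ 7 * (M : ℝ) ^ 2 ≤ ε * T := by
    have h1 : 10 ^ 7 * (M : ℝ) ^ 2 / ε ≤ T := by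
      rw [hT]
      exact Real.le_sqrt_of_sq_le hN2
    rw [div_le_iff₀ hε] at h1
    linarith
  obtain ⟨R, hR⟩ : ∃ R, R = (s0 + ε) * Real.sqrt (18 * N) := ⟨_, rfl⟩
  have hR0 : 0 ≤ R := by rw [hR]; positivity
  have hR2 : R ^ 2 = (s0 + ε) ^ 2 * (18 * N) := by
    rw [hR, mul_pow, Real.sq_sqrt (by linarith)]
  have hR162 : R ^ 2 ≤ 162 * N := by
    rw [hR2]
    have : (s0 + ε) ^ 2 ≤ 9 := by nlinarith
    nlinarith
  have hR13 : R ≤ 13 * T := by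
    apply le_of_sq_le_sq _ (by positivity)
    nlinarith
  choose! z hz using fun P (hP : P ∈ F) => (hF P hP).2.2.2
  have hq : ∀ P ∈ F, (0 : ℝ) < P.1 := fun P hP => lt_of_lt_of_le (by linarith) (hF P hP).1
  have hupper : ∀ P ∈ F, Real.sqrt (((z P).1 : ℝ) ^ 2 + ((z P).2 : ℝ) ^ 2) <
      (s0 + ε) * Real.sqrt P.1 := by
    intro P hP
    have h1 := (abs_lt.mp (hz P hP).2.2.2).2
    have h2 : 0 < Real.sqrt P.1 := Real.sqrt_pos.mpr (hq P hP)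
    rw [sub_lt_iff_lt_add, div_lt_iff₀ h2] at h1
    linarith
  have hlower : ∀ P ∈ F, (s0 - ε) * Real.sqrt P.1 <
      Real.sqrt (((z P).1 : ℝ) ^ 2 + ((z P).2 : ℝ) ^ 2) := by
    intro P hP
    have h1 := (abs_lt.mp (hz P hP).2.2.2).1
    have h2 : 0 < Real.sqrt P.1 := Real.sqrt_pos.mpr (hq P hP)
    have h3 : s0 - ε < Real.sqrt (((z P).1 : ℝ) ^ 2 + ((z P).2 : ℝ) ^ 2) / Real.sqrt P.1 := by
      linarith
    rwa [lt_div_iff₀ h2] at h3
  obtain ⟨len, hlen⟩ : ∃ len, len = if 2 * ε ≤ s0 then 288 * N * ε / s0 else 18 * N := ⟨_, rfl⟩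
  have hlen0 : 0 ≤ len := by rw [hlen]; split_ifs <;> positivity
  have hlen1 : len ≤ 144 * N := by
    rw [hlen]
    split_ifs with h
    · have hs : 0 < s0 := by linarith
      rw [div_le_iff₀ hs]
      nlinarith [mul_le_mul_of_nonneg_left h (show 0 ≤ 144 * N by positivity)]
    · linarith
  have hlenR : len * R ^ 2 ≤ 23328 * ε * N ^ 2 := by
    rw [hlen, hR2]
    split_ifs with h
    · have hs : 0 < s0 := by linarith
      have h1 : (s0 + ε) ^ 2 ≤ (9 / 4) * s0 ^ 2 := by nlinarith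
      calc 288 * N * ε / s0 * ((s0 + ε) ^ 2 * (18 * N)) ≤
            288 * N * ε / s0 * ((9 / 4) * s0 ^ 2 * (18 * N)) := by gcongr
        _ = 11664 * ε * N ^ 2 * s0 := by field_simp; ring
        _ ≤ 11664 * ε * N ^ 2 * 2 := by gcongr
        _ = _ := by ring
    · push Not at h
      have h1 : (s0 + ε) ^ 2 ≤ 9 * ε := by nlinarith
      calc 18 * N * ((s0 + ε) ^ 2 * (18 * N)) ≤ 18 * N * (9 * ε * (18 * N)) := by gcongr
        _ ≤ _ := by nlinarith [mul_pos hε (show 0 < N ^ 2 by positivity)]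
  obtain ⟨n, hn⟩ : ∃ n, n = ⌊R⌋₊ := ⟨_, rfl⟩
  have hnR : (n : ℝ) ≤ R := by rw [hn]; exact Nat.floor_le hR0
  have key := card_total K M hM hG len (18 * N) hlen0 (by linarith) n F z
    (fun P hP => ⟨by exact_mod_cast hq P hP, (hF P hP).2.1⟩)
    (fun P hP => (hF P hP).2.2.1)
    (fun P hP => by
      refine ⟨(hz P hP).1, (hz P hP).2.1, ?_⟩
      have h1 : |((z P).1 : ℝ)| ≤ R := by
        calc |((z P).1 : ℝ)| = Real.sqrt (((z P).1 : ℝ) ^ 2) := (Real.sqrt_sq_eq_abs _).symm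
          _ ≤ Real.sqrt (((z P).1 : ℝ) ^ 2 + ((z P).2 : ℝ) ^ 2) :=
              Real.sqrt_le_sqrt (by linarith [sq_nonneg ((z P).2 : ℝ)])
          _ ≤ (s0 + ε) * Real.sqrt P.1 := (hupper P hP).le
          _ ≤ R := by
              rw [hR]
              gcongr
              exact (hF P hP).2.1
      have h2 : ((z P).1.natAbs : ℝ) ≤ R := by
        rw [Nat.cast_natAbs]; push_cast; exact h1
      have h3 : (z P).1.natAbs ≤ n := by
        rw [hn]; exact Nat.le_floor h2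
      rw [Int.abs_eq_natAbs]
      exact_mod_cast h3)
    (fun P hP P' hP' he => by
      have h2 := hupper P' hP'
      rw [← he] at h2
      exact len_aux hs0 hε hlen (hq P hP) (hq P' hP') (hlower P hP) h2 (hF P hP).2.1
        (hF P' hP').2.1 (hF P' hP').1 hN1)
    (fun P hP => (hz P hP).2.2.1)
  refine key.trans ?_
  obtain ⟨μ, hμ⟩ : ∃ μ, μ = (volume K).toReal := ⟨_, rfl⟩
  have hμ0 : 0 ≤ μ := by rw [hμ]; exact ENNReal.toReal_nonneg
  obtain ⟨m, hm⟩ : ∃ m : ℝ, m = M := ⟨_, rfl⟩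
  obtain ⟨nn, hnn⟩ : ∃ nn : ℝ, nn = n := ⟨_, rfl⟩
  rw [← hm] at hM1 hTM
  rw [← hnn] at hnR
  rw [← hμ, ← hm, ← hnn]
  have hnn0 : 0 ≤ nn := by rw [hnn]; positivity
  exact num_aux hμ0 hM1 hTM hnR hnn0 hlen0 hlen1 hlenR hTT hT1 hR13 hN1 hε

/-- **few primitive vectors over a compact set have normalised shortest vector in a given short
interval** -/
theorem count_bad (K : Set (ℝ × ℝ)) (hK : IsCompact K) (hpos : 0 < volume K) (s0 ε : ℝ)
    (hs0 : 0 ≤ s0) (hs2 : s0 ≤ 2) (hε : 0 < ε) (hε1 : ε ≤ 1) :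
    ∃ N0 : ℝ, ∀ N ≥ N0, ∀ F : Finset (ℤ × ℤ × ℤ), (∀ P ∈ F, N ≤ P.1 ∧ (P.1 : ℝ) ≤ 18 * N ∧
      ((P.2.1 : ℝ) / P.1, (P.2.2 : ℝ) / P.1) ∈ K ∧
      (∃ a b e : ℤ, a * P.2.1 + b * P.2.2 + e * P.1 = 1) ∧
        |lam P.1 P.2.1 P.2.2 / Real.sqrt P.1 - s0| < ε) →
      (F.card : ℝ) ≤ 2 * 10 ^ 7 * ε * (volume K).toReal * N ^ 3 := by
  classical
  obtain ⟨N1, h1⟩ := count_half K hK hpos s0 ε hs0 hs2 hε hε1
  have hKs : IsCompact (Prod.swap '' K) := hK.image continuous_swap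
  have hvs : volume (Prod.swap '' K) = volume K := by
    have h := Measure.prod_swap (μ := (volume : Measure ℝ)) (ν := (volume : Measure ℝ))
    rw [Set.image_swap_eq_preimage_swap, Measure.volume_eq_prod]
    conv_rhs => rw [← h]
    rw [Measure.map_apply measurable_swap hK.measurableSet]
  obtain ⟨N2, h2⟩ := count_half (Prod.swap '' K) hKs (by rw [hvs]; exact hpos) s0 ε hs0 hs2 hε hε1
  rw [hvs] at h2
  refine ⟨max 1 (max N1 N2), fun N hN F hF => ?_⟩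
  have hN0 : 1 ≤ N := le_trans (le_max_left _ _) hN
  have hN1 : N1 ≤ N := le_trans (le_max_left _ _) (le_trans (le_max_right _ _) hN)
  have hN2 : N2 ≤ N := le_trans (le_max_right _ _) (le_trans (le_max_right _ _) hN)
  have hq : ∀ P ∈ F, 0 < P.1 := fun P hP => by
    have : (0 : ℝ) < P.1 := lt_of_lt_of_le (by linarith) (hF P hP).1
    exact_mod_cast this
  choose! x y c hxy using fun P (hP : P ∈ F) => exists_short' (hq P hP) (hF P hP).2.2.2.1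
  obtain ⟨F1, hF1⟩ : ∃ F1, F1 = F.filter (fun P => |y P| ≤ |x P|) := ⟨_, rfl⟩
  obtain ⟨F2, hF2⟩ : ∃ F2, F2 = F.filter (fun P => ¬ |y P| ≤ |x P|) := ⟨_, rfl⟩
  have hcard : F.card = F1.card + F2.card := by
    rw [hF1, hF2]; exact (Finset.card_filter_add_card_filter_not _).symm
  have hc1 := h1 N hN1 F1 (fun P hP => by
    rw [hF1, Finset.mem_filter] at hP
    obtain ⟨k1, k2, k3, k4, k5⟩ := hF P hP.1
    obtain ⟨l1, l2, l3, l4⟩ := hxy P hP.1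
    refine ⟨k1, k2, k3, (x P, y P), ?_, hP.2, ⟨c P, l2, l4⟩, ?_⟩
    · rintro h0
      simp only at h0
      rcases l1 with h | h
      · exact h h0
      · have := hP.2
        rw [h0, abs_zero] at this
        exact h (abs_nonpos_iff.mp this)
    · rw [l3] at k5
      exact k5)
  have hc2 := h2 N hN2 (F2.image (fun P => (P.1, P.2.2, P.2.1))) (fun Q hQ => by
    rw [Finset.mem_image] at hQ
    obtain ⟨P, hP, rfl⟩ := hQ
    rw [hF2, Finset.mem_filter] at hP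
    obtain ⟨k1, k2, k3, k4, k5⟩ := hF P hP.1
    obtain ⟨l1, l2, l3, l4⟩ := hxy P hP.1
    have hlt : |x P| < |y P| := not_le.mp hP.2
    refine ⟨k1, k2, ⟨_, k3, rfl⟩, (y P, x P), ?_, hlt.le, ⟨-c P, ?_, ?_⟩, ?_⟩
    · rintro h0
      simp only at h0
      rw [h0, abs_zero] at hlt
      exact absurd (abs_nonneg (x P)) (not_le.mpr hlt)
    · simp only
      linear_combination -l2
    · intro d d1 d2 d3
      exact l4 d d2 d1 ((dvd_neg).mp d3)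
    · rw [l3] at k5
      simp only
      rw [add_comm]
      exact k5)
  rw [Finset.card_image_of_injective] at hc2
  · rw [hcard]; push_cast
    linarith
  · intro P P' h
    simp only [Prod.mk.injEq] at h
    ext
    · exact h.1
    · exact h.2.2
    · exact h.2.1

end Pool.Agent.H19.JP
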