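import Mathlib

/-!
The Jacobi–Perron algorithm in dimension two.
-/

set_option autoImplicit false

namespace Pool.Agent.H19.JP

/-- the Jacobi–Perron map -/
noncomputable def T (x : ℝ × ℝ) : ℝ × ℝ := (Int.fract (x.2 / x.1), Int.fract (1 / x.1))

/-- the digits `(⌊β/α⌋, ⌊1/α⌋)` -/
noncomputable def dig (x : ℝ × ℝ) : ℕ × ℕ := (⌊x.2 / x.1⌋₊, ⌊1 / x.1⌋₊)

/-- the recursion `P_{i+1} = b P_i + a P_{i-1} + P_{i-2}`; a state is
`(P_i, P_{i-1}, P_{i-2})` with `P = (q, p, r)` -/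
def step (l : ℕ × ℕ) (S : (ℤ × ℤ × ℤ) × (ℤ × ℤ × ℤ) × (ℤ × ℤ × ℤ)) :
    (ℤ × ℤ × ℤ) × (ℤ × ℤ × ℤ) × (ℤ × ℤ × ℤ) :=
  ((l.2 : ℤ) • S.1 + (l.1 : ℤ) • S.2.1 + S.2.2, S.1, S.2.1)

/-- the initial state -/
def init : (ℤ × ℤ × ℤ) × (ℤ × ℤ × ℤ) × (ℤ × ℤ × ℤ) := ((1, 0, 0), (0, 0, 1), (0, 1, 0))

/-- the states along the expansion of `x` -/
noncomputable def convs (x : ℝ × ℝ) : ℕ → (ℤ × ℤ × ℤ) × (ℤ × ℤ × ℤ) × (ℤ × ℤ × ℤ)
  | 0 => init
  | n + 1 => step (dig (T^[n] x)) (convs x n)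

/-- `1, α, β` are linearly independent over `ℚ` and `(α, β)` is in the open unit square -/
def Adm (x : ℝ × ℝ) : Prop :=
  0 < x.1 ∧ x.1 < 1 ∧ 0 < x.2 ∧ x.2 < 1 ∧
    ∀ k l m : ℤ, (k : ℝ) + l * x.1 + m * x.2 = 0 → k = 0 ∧ l = 0 ∧ m = 0

/-- the inverse branch -/
noncomputable def psi1 (l : ℕ × ℕ) (t : ℝ × ℝ) : ℝ × ℝ :=
  (1 / (l.2 + t.2), (l.1 + t.1) / (l.2 + t.2))

/-- the denominator -/
noncomputable def den (S : (ℤ × ℤ × ℤ) × (ℤ × ℤ × ℤ) × (ℤ × ℤ × ℤ)) (t : ℝ × ℝ) : ℝ :=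
  S.1.1 + t.1 * S.2.2.1 + t.2 * S.2.1.1

/-- the projective map of a state -/
noncomputable def psiS (S : (ℤ × ℤ × ℤ) × (ℤ × ℤ × ℤ) × (ℤ × ℤ × ℤ)) (t : ℝ × ℝ) : ℝ × ℝ :=
  ((S.1.2.1 + t.1 * S.2.2.2.1 + t.2 * S.2.1.2.1) / den S t,
    (S.1.2.2 + t.1 * S.2.2.2.2 + t.2 * S.2.1.2.2) / den S t)

/-- the determinant -/
def det (S : (ℤ × ℤ × ℤ) × (ℤ × ℤ × ℤ) × (ℤ × ℤ × ℤ)) : ℤ :=
  S.1.1 * (S.2.1.2.1 * S.2.2.2.2 - S.2.1.2.2 * S.2.2.2.1) -
    S.2.1.1 * (S.1.2.1 * S.2.2.2.2 - S.1.2.2 * S.2.2.2.1) +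
    S.2.2.1 * (S.1.2.1 * S.2.1.2.2 - S.1.2.2 * S.2.1.2.1)

/-- good states -/
def Good (S : (ℤ × ℤ × ℤ) × (ℤ × ℤ × ℤ) × (ℤ × ℤ × ℤ)) : Prop :=
  0 < S.1.1 ∧ 0 ≤ S.2.1.1 ∧ S.2.1.1 ≤ S.1.1 ∧ 0 ≤ S.2.2.1 ∧ S.2.2.1 ≤ S.1.1 ∧ det S = -1

lemma good_init : Good init := by
  unfold Good init det
  norm_num

lemma step_q (l : ℕ × ℕ) (S) : (step l S).1.1 = l.2 * S.1.1 + l.1 * S.2.1.1 + S.2.2.1 := by
  simp [step]

lemma Good.step {S} (hS : Good S) {l : ℕ × ℕ} (hl : 1 ≤ l.2) : Good (step l S) := by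
  obtain ⟨h1, h2, h3, h4, h5, h6⟩ := hS
  have hb : (1 : ℤ) ≤ l.2 := by exact_mod_cast hl
  have ha : (0 : ℤ) ≤ l.1 := by positivity
  have e1 : (JP.step l S).1.1 = l.2 * S.1.1 + l.1 * S.2.1.1 + S.2.2.1 := step_q l S
  have e2 : S.1.1 ≤ (JP.step l S).1.1 := by
    rw [e1]; nlinarith [mul_nonneg ha h2]
  have e3 : (JP.step l S).2.1.1 = S.1.1 := rfl
  have e4 : (JP.step l S).2.2.1 = S.2.1.1 := rfl
  refine ⟨by linarith, by rw [e3]; exact h1.le, by rw [e3]; exact e2, by rw [e4]; exact h2,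
    by rw [e4]; linarith, ?_⟩
  rw [← h6]
  simp only [det, JP.step, Prod.fst_add, Prod.snd_add, Prod.smul_fst, Prod.smul_snd, smul_eq_mul]
  ring

lemma den_pos {S} (hS : Good S) {t : ℝ × ℝ} (h1 : 0 ≤ t.1) (h2 : 0 ≤ t.2) :
    (S.1.1 : ℝ) ≤ den S t := by
  obtain ⟨k1, k2, k3, k4, k5, k6⟩ := hS
  unfold den
  have : (0 : ℝ) ≤ S.2.1.1 := by exact_mod_cast k2
  have : (0 : ℝ) ≤ S.2.2.1 := by exact_mod_cast k4
  nlinarith [mul_nonneg h1 this, mul_nonneg h2 (show (0 : ℝ) ≤ S.2.1.1 by exact_mod_cast k2)]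

lemma den_pos' {S} (hS : Good S) {t : ℝ × ℝ} (h1 : 0 ≤ t.1) (h2 : 0 ≤ t.2) : 0 < den S t :=
  lt_of_lt_of_le (by exact_mod_cast hS.1) (den_pos hS h1 h2)

lemma den_le {S} (hS : Good S) {t : ℝ × ℝ} (h1 : 0 ≤ t.1) (h2 : 0 ≤ t.2) (h3 : t.1 ≤ 1)
    (h4 : t.2 ≤ 1) : den S t ≤ 3 * S.1.1 := by
  obtain ⟨k1, k2, k3, k4, k5, k6⟩ := hS
  unfold den
  have a1 : (0 : ℝ) ≤ S.2.1.1 := by exact_mod_cast k2
  have a2 : (0 : ℝ) ≤ S.2.2.1 := by exact_mod_cast k4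
  have a3 : (S.2.1.1 : ℝ) ≤ S.1.1 := by exact_mod_cast k3
  have a4 : (S.2.2.1 : ℝ) ≤ S.1.1 := by exact_mod_cast k5
  have b1 : t.1 * (S.2.2.1 : ℝ) ≤ 1 * S.1.1 := by gcongr
  have b2 : t.2 * (S.2.1.1 : ℝ) ≤ 1 * S.1.1 := by gcongr
  linarith

lemma psiS_step {S} (hS : Good S) {l : ℕ × ℕ} (hl : 1 ≤ l.2) {t : ℝ × ℝ} (h1 : 0 ≤ t.1)
    (h2 : 0 ≤ t.2) : psiS (step l S) t = psiS S (psi1 l t) := by
  have hb : (1 : ℝ) ≤ l.2 := by exact_mod_cast hl
  have hbt : (0 : ℝ) < l.2 + t.2 := by linarith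
  have hd := den_pos' (hS.step hl) h1 h2
  have hd2 : den S (psi1 l t) = den (step l S) t / (l.2 + t.2) := by
    simp only [den, psi1, step, Prod.fst_add, Prod.smul_fst, smul_eq_mul, Int.cast_add,
      Int.cast_mul, Int.cast_natCast]
    field_simp
    ring
  unfold psiS
  rw [hd2]
  ext
  · simp only [psi1, step, Prod.fst_add, Prod.smul_fst, Prod.snd_add, Prod.smul_snd, smul_eq_mul,
      Int.cast_add, Int.cast_mul, Int.cast_natCast]
    field_simp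
    ring
  · simp only [psi1, step, Prod.fst_add, Prod.smul_fst, Prod.snd_add, Prod.smul_snd, smul_eq_mul,
      Int.cast_add, Int.cast_mul, Int.cast_natCast]
    field_simp
    ring

lemma psiS_init (t : ℝ × ℝ) : psiS init t = t := by
  simp [psiS, init, den]

/-- the state of a word -/
def st (w : List (ℕ × ℕ)) : (ℤ × ℤ × ℤ) × (ℤ × ℤ × ℤ) × (ℤ × ℤ × ℤ) :=
  w.foldl (fun S l => step l S) init

lemma st_append (w u : List (ℕ × ℕ)) : st (w ++ u) = u.foldl (fun S l => step l S) (st w) := by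
  unfold st; rw [List.foldl_append]

lemma st_snoc (w : List (ℕ × ℕ)) (l : ℕ × ℕ) : st (w ++ [l]) = step l (st w) := by
  rw [st_append]; rfl

/-- the composition of the inverse branches of a word -/
noncomputable def psi : List (ℕ × ℕ) → ℝ × ℝ → ℝ × ℝ
  | [], t => t
  | l :: w, t => psi1 l (psi w t)

lemma psi_append (w u : List (ℕ × ℕ)) (t : ℝ × ℝ) : psi (w ++ u) t = psi w (psi u t) := by
  induction w with
  | nil => rfl
  | cons l w ih => simp only [List.cons_append, psi, ih]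

/-- admissible words -/
def adw : List (ℕ × ℕ) → Prop
  | [] => True
  | l :: w => (1 ≤ l.2 ∧ l.1 ≤ l.2 ∧ (l.1 = l.2 → ∀ l' ∈ w.head?, 1 ≤ l'.1)) ∧ adw w

lemma adw_append {w u : List (ℕ × ℕ)} (hw : adw w) (hu : adw u)
    (h : ∀ l ∈ u.head?, 1 ≤ l.1) : adw (w ++ u) := by
  induction w with
  | nil => exact hu
  | cons l w ih =>
    obtain ⟨⟨h1, h2, h3⟩, h4⟩ := hw
    refine ⟨⟨h1, h2, fun he l' hl' => ?_⟩, ih h4⟩
    cases w with
    | nil => exact h l' hl'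
    | cons l'' w => exact h3 he l' hl'

lemma adw_right {w u : List (ℕ × ℕ)} (h : adw (w ++ u)) : adw u := by
  induction w with
  | nil => exact h
  | cons l w ih => exact ih h.2

lemma psi1_nonneg (l : ℕ × ℕ) {t : ℝ × ℝ} (h1 : 0 ≤ t.1) (h2 : 0 ≤ t.2) :
    0 ≤ (psi1 l t).1 ∧ 0 ≤ (psi1 l t).2 := by
  unfold psi1
  constructor <;> positivity

lemma psi_nonneg (w : List (ℕ × ℕ)) {t : ℝ × ℝ} (h1 : 0 ≤ t.1) (h2 : 0 ≤ t.2) :
    0 ≤ (psi w t).1 ∧ 0 ≤ (psi w t).2 := by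
  induction w with
  | nil => exact ⟨h1, h2⟩
  | cons l w ih => exact psi1_nonneg l ih.1 ih.2

lemma psiS_foldl (w : List (ℕ × ℕ)) (hw : ∀ l ∈ w, 1 ≤ l.2) {S} (hS : Good S) {t : ℝ × ℝ}
    (h1 : 0 ≤ t.1) (h2 : 0 ≤ t.2) :
    Good (w.foldl (fun S l => step l S) S) ∧
      psiS (w.foldl (fun S l => step l S) S) t = psiS S (psi w t) := by
  induction w generalizing S with
  | nil => exact ⟨hS, rfl⟩
  | cons l w ih =>
    have hl : 1 ≤ l.2 := hw l (by simp)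
    have hw' : ∀ l ∈ w, 1 ≤ l.2 := fun l' hl' => hw l' (by simp [hl'])
    obtain ⟨k1, k2⟩ := ih hw' (hS.step hl)
    refine ⟨k1, ?_⟩
    have h3 := psi_nonneg w h1 h2
    simp only [List.foldl_cons]
    rw [k2, psiS_step hS hl h3.1 h3.2]
    rfl

lemma adw.pos {w : List (ℕ × ℕ)} (hw : adw w) : ∀ l ∈ w, 1 ≤ l.2 := by
  induction w with
  | nil => intro l hl; simp at hl
  | cons l w ih =>
    intro l' hl'
    rcases List.mem_cons.mp hl' with h | h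
    · rw [h]; exact hw.1.1
    · exact ih hw.2 l' h

lemma good_st {w : List (ℕ × ℕ)} (hw : adw w) : Good (st w) :=
  (psiS_foldl w hw.pos good_init (t := (0, 0)) le_rfl le_rfl).1

lemma psiS_st {w : List (ℕ × ℕ)} (hw : adw w) {t : ℝ × ℝ} (h1 : 0 ≤ t.1) (h2 : 0 ≤ t.2) :
    psiS (st w) t = psi w t := by
  have := (psiS_foldl w hw.pos good_init h1 h2).2
  rw [psiS_init] at this
  exact this

lemma psiS_st_append {w u : List (ℕ × ℕ)} (hw : adw w) {t : ℝ × ℝ} (h1 : 0 ≤ t.1)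
    (h2 : 0 ≤ t.2) : psi (w ++ u) t = psiS (st w) (psi u t) := by
  rw [psi_append, psiS_st hw (psi_nonneg u h1 h2).1 (psi_nonneg u h1 h2).2]

/-! ### the dynamics -/

lemma dig_psi1 {l : ℕ × ℕ} (hl : 1 ≤ l.2) {t : ℝ × ℝ} (h1 : 0 ≤ t.1) (h2 : t.1 < 1)
    (h3 : 0 ≤ t.2) (h4 : t.2 < 1) : dig (psi1 l t) = l ∧ T (psi1 l t) = t := by
  have hb : (1 : ℝ) ≤ l.2 := by exact_mod_cast hl
  have hbt : (0 : ℝ) < l.2 + t.2 := by linarith
  have e1 : (psi1 l t).2 / (psi1 l t).1 = l.1 + t.1 := by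
    unfold psi1; simp only; field_simp
  have e2 : 1 / (psi1 l t).1 = l.2 + t.2 := by
    unfold psi1; simp only; field_simp
  constructor
  · unfold dig
    rw [e1, e2]
    ext
    · simp only
      rw [Nat.floor_eq_iff (by positivity)]
      constructor <;> linarith
    · simp only
      rw [Nat.floor_eq_iff (by positivity)]
      constructor <;> linarith
  · unfold T
    rw [e1, e2]
    ext
    · simp only
      rw [Int.fract_natCast_add, Int.fract_eq_self.mpr ⟨h1, h2⟩]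
    · simp only
      rw [Int.fract_natCast_add, Int.fract_eq_self.mpr ⟨h3, h4⟩]

lemma fract_eq_nat {z : ℝ} (hz : 0 ≤ z) : Int.fract z = z - ⌊z⌋₊ := by
  unfold Int.fract
  rw [← natCast_floor_eq_intCast_floor hz]

lemma Adm.T_eq {x : ℝ × ℝ} (hx : Adm x) : T x = (x.2 / x.1 - (dig x).1, 1 / x.1 - (dig x).2) := by
  obtain ⟨h1, h2, h3, h4, h5⟩ := hx
  unfold T dig
  rw [fract_eq_nat (by positivity), fract_eq_nat (by positivity)]

lemma Adm.T {x : ℝ × ℝ} (hx : Adm x) : Adm (T x) := by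
  have hT := hx.T_eq
  obtain ⟨h1, h2, h3, h4, h5⟩ := hx
  obtain ⟨a, ha⟩ : ∃ a, a = (dig x).1 := ⟨_, rfl⟩
  obtain ⟨b, hb⟩ : ∃ b, b = (dig x).2 := ⟨_, rfl⟩
  have hlin : ∀ k l m : ℤ, (k : ℝ) + l * (JP.T x).1 + m * (JP.T x).2 = 0 → k = 0 ∧ l = 0 ∧ m = 0 := by
    intro k l m h
    rw [hT, ← ha, ← hb] at h
    simp only at h
    have h6 : ((m : ℤ) : ℝ) + ((k - l * a - m * b : ℤ) : ℝ) * x.1 + (l : ℤ) * x.2 = 0 := by
      have h7 : x.1 * ((k : ℝ) + l * (x.2 / x.1 - a) + m * (1 / x.1 - b)) = 0 := by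
        rw [h, mul_zero]
      field_simp at h7
      push_cast
      linarith
    obtain ⟨k1, k2, k3⟩ := h5 _ _ _ h6
    refine ⟨?_, k3, k1⟩
    rw [k1, k3] at k2
    simpa using k2
  have f1 : 0 ≤ (JP.T x).1 := Int.fract_nonneg _
  have f2 : (JP.T x).1 < 1 := Int.fract_lt_one _
  have f3 : 0 ≤ (JP.T x).2 := Int.fract_nonneg _
  have f4 : (JP.T x).2 < 1 := Int.fract_lt_one _
  refine ⟨lt_of_le_of_ne f1 ?_, f2, lt_of_le_of_ne f3 ?_, f4, hlin⟩
  · intro h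
    have := hlin 0 1 0 (by rw [← h]; simp)
    omega
  · intro h
    have := hlin 0 0 1 (by rw [← h]; simp)
    omega

lemma Adm.iter {x : ℝ × ℝ} (hx : Adm x) (n : ℕ) : Adm (JP.T^[n] x) := by
  induction n with
  | zero => exact hx
  | succ n ih => rw [Function.iterate_succ_apply']; exact ih.T

lemma Adm.ne {x : ℝ × ℝ} (hx : Adm x) : x.1 ≠ x.2 := by
  intro h
  have := hx.2.2.2.2 0 1 (-1) (by rw [h]; push_cast; ring)
  omega

lemma Adm.psi1_dig {x : ℝ × ℝ} (hx : Adm x) : psi1 (dig x) (JP.T x) = x := by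
  have hT := hx.T_eq
  obtain ⟨h1, h2, h3, h4, h5⟩ := hx
  unfold psi1
  rw [hT]
  simp only
  have e1 : ((dig x).2 : ℝ) + (1 / x.1 - (dig x).2) = 1 / x.1 := by ring
  have e2 : ((dig x).1 : ℝ) + (x.2 / x.1 - (dig x).1) = x.2 / x.1 := by ring
  rw [e1, e2]
  ext
  · simp only; field_simp
  · simp only; field_simp

lemma Adm.dig_valid {x : ℝ × ℝ} (hx : Adm x) : 1 ≤ (dig x).2 ∧ (dig x).1 ≤ (dig x).2 ∧
    ((dig x).1 = (dig x).2 → (JP.T x).1 < (JP.T x).2) := by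
  have hT := hx.T_eq
  obtain ⟨h1, h2, h3, h4, h5⟩ := hx
  refine ⟨?_, ?_, ?_⟩
  · unfold dig
    simp only
    rw [Nat.one_le_floor_iff, le_div_iff₀ h1]
    linarith
  · unfold dig
    simp only
    apply Nat.floor_le_floor
    gcongr
  · intro h
    rw [hT, h]
    simp only
    have : x.2 / x.1 < 1 / x.1 := by gcongr
    linarith

lemma Adm_psi1 {t : ℝ × ℝ} (ht : Adm t) {l : ℕ × ℕ} (h1 : 1 ≤ l.2) (h2 : l.1 ≤ l.2)
    (h3 : l.1 = l.2 → t.1 < t.2) : Adm (psi1 l t) := by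
  obtain ⟨k1, k2, k3, k4, k5⟩ := ht
  have hb : (1 : ℝ) ≤ l.2 := by exact_mod_cast h1
  have hbt : (1 : ℝ) < l.2 + t.2 := by linarith
  have hbt0 : (0 : ℝ) < l.2 + t.2 := by linarith
  have ha : (0 : ℝ) ≤ l.1 := by positivity
  unfold psi1
  refine ⟨by positivity, ?_, by positivity, ?_, ?_⟩
  · simp only
    rw [div_lt_one hbt0]; exact hbt
  · simp only
    rw [div_lt_one hbt0]
    by_cases h : l.1 = l.2
    · rw [h]; linarith [h3 h]
    · have : l.1 + 1 ≤ l.2 := by omega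
      have : (l.1 : ℝ) + 1 ≤ l.2 := by exact_mod_cast this
      linarith
  · intro k l' m h
    simp only at h
    have h6 : (((k * l.2 + l' + m * l.1 : ℤ)) : ℝ) + (m : ℤ) * t.1 + (k : ℤ) * t.2 = 0 := by
      field_simp at h
      push_cast
      linarith
    obtain ⟨j1, j2, j3⟩ := k5 _ _ _ h6
    subst j2 j3
    refine ⟨rfl, ?_, rfl⟩
    simpa using j1

/-! ### words -/

/-- the first `n` digits -/
noncomputable def wd (x : ℝ × ℝ) : ℕ → List (ℕ × ℕ)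
  | 0 => []
  | n + 1 => wd x n ++ [dig (T^[n] x)]

lemma wd_length (x : ℝ × ℝ) (n : ℕ) : (wd x n).length = n := by
  induction n with
  | zero => rfl
  | succ n ih => simp [wd, ih]

lemma wd_add (x : ℝ × ℝ) (n k : ℕ) : wd x (n + k) = wd x n ++ wd (T^[n] x) k := by
  induction k with
  | zero => simp [wd]
  | succ k ih =>
    rw [← add_assoc, wd, ih, wd, List.append_assoc]
    rw [← Function.iterate_add_apply, add_comm k n]

lemma wd_cons (x : ℝ × ℝ) (n : ℕ) : wd x (n + 1) = dig x :: wd (T x) n := by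
  rw [add_comm, wd_add]
  simp [wd]

lemma convs_eq (x : ℝ × ℝ) (n : ℕ) : convs x n = st (wd x n) := by
  induction n with
  | zero => rfl
  | succ n ih => rw [wd, st_snoc, ← ih]; rfl

lemma Adm.adw {x : ℝ × ℝ} (hx : Adm x) (n : ℕ) : adw (wd x n) := by
  induction n generalizing x with
  | zero => trivial
  | succ n ih =>
    rw [wd_cons]
    obtain ⟨h1, h2, h3⟩ := hx.dig_valid
    refine ⟨⟨h1, h2, fun he l' hl' => ?_⟩, ih hx.T⟩
    cases n with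
    | zero => simp [wd] at hl'
    | succ n =>
      rw [wd_cons] at hl'
      simp only [List.head?_cons, Option.mem_def, Option.some.injEq] at hl'
      rw [← hl']
      have h4 := h3 he
      have h5 := hx.T.1
      unfold dig
      simp only
      rw [Nat.one_le_floor_iff, le_div_iff₀ h5]
      linarith

lemma Adm.psi_wd {x : ℝ × ℝ} (hx : Adm x) (n : ℕ) : psi (wd x n) (JP.T^[n] x) = x := by
  induction n generalizing x with
  | zero => rfl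
  | succ n ih =>
    rw [wd_cons, psi, Function.iterate_succ_apply, ih hx.T, hx.psi1_dig]

/-- cylinders -/
def cyl (w : List (ℕ × ℕ)) : Set (ℝ × ℝ) := {x | Adm x ∧ wd x w.length = w}

lemma adw_of_mem_cyl {w : List (ℕ × ℕ)} {x : ℝ × ℝ} (hx : x ∈ cyl w) : adw w := by
  have := hx.1.adw w.length
  rw [hx.2] at this
  exact this

lemma psi_mem_cyl {w : List (ℕ × ℕ)} (hw : adw w) {t : ℝ × ℝ} (ht : Adm t)
    (hl : ∀ l ∈ w.getLast?, l.1 = l.2 → t.1 < t.2) :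
    psi w t ∈ cyl w ∧ T^[w.length] (psi w t) = t := by
  induction w with
  | nil => exact ⟨⟨ht, rfl⟩, rfl⟩
  | cons l w ih =>
    have hl' : ∀ l ∈ w.getLast?, l.1 = l.2 → t.1 < t.2 := by
      intro l' h1 h2
      cases w with
      | nil => simp at h1
      | cons l'' w => exact hl l' (by rw [List.getLast?_cons_cons]; exact h1) h2
    obtain ⟨⟨i1, i2⟩, i3⟩ := ih hw.2 hl'
    obtain ⟨⟨h1, h2, h3⟩, h4⟩ := hw
    have h5 : l.1 = l.2 → (psi w t).1 < (psi w t).2 := by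
      intro he
      cases w with
      | nil => exact hl l (by simp) he
      | cons l'' w =>
        have h6 : 1 ≤ l''.1 := h3 he l'' (by simp)
        have h7 : dig (psi (l'' :: w) t) = l'' := by
          rw [List.length_cons, wd_cons] at i2
          exact (List.cons.inj i2).1
        have h8 : 1 ≤ (dig (psi (l'' :: w) t)).1 := by rw [h7]; exact h6
        unfold dig at h8
        simp only at h8
        rw [Nat.one_le_floor_iff, le_div_iff₀ i1.1] at h8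
        exact lt_of_le_of_ne (by linarith) i1.ne
    have h6 : Adm (psi (l :: w) t) := Adm_psi1 i1 h1 h2 h5
    obtain ⟨j1, j2⟩ := dig_psi1 h1 i1.1.le i1.2.1 i1.2.2.1.le i1.2.2.2.1
    refine ⟨⟨h6, ?_⟩, ?_⟩
    · rw [List.length_cons, wd_cons]
      change dig (psi1 l (psi w t)) :: wd (JP.T (psi1 l (psi w t))) w.length = _
      rw [j1, j2, i2]
    · rw [List.length_cons, Function.iterate_succ_apply]
      change JP.T^[w.length] (JP.T (psi1 l (psi w t))) = t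
      rw [j2, i3]

/-! ### growth of the denominators -/

lemma q_mono {S} (hS : Good S) {l : ℕ × ℕ} (hl : 1 ≤ l.2) : S.1.1 ≤ (step l S).1.1 := by
  have := (hS.step hl).2.2.1
  exact this

lemma convs_good {x : ℝ × ℝ} (hx : Adm x) (n : ℕ) : Good (convs x n) := by
  rw [convs_eq]; exact good_st (hx.adw n)

lemma convs_mono {x : ℝ × ℝ} (hx : Adm x) : Monotone (fun n => (convs x n).1.1) := by
  apply monotone_nat_of_le_succ
  intro n
  exact q_mono (convs_good hx n) (hx.iter n).dig_valid.1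

lemma convs_sum {x : ℝ × ℝ} (hx : Adm x) (n : ℕ) :
    (n : ℤ) ≤ (convs x n).1.1 + (convs x n).2.1.1 + (convs x n).2.2.1 := by
  induction n with
  | zero => simp [convs, init]
  | succ n ih =>
    obtain ⟨h1, h2, h3, h4, h5, h6⟩ := convs_good hx n
    have e1 : (convs x (n + 1)).1.1 = (dig (T^[n] x)).2 * (convs x n).1.1 +
        (dig (T^[n] x)).1 * (convs x n).2.1.1 + (convs x n).2.2.1 := step_q _ _
    have e2 : (convs x (n + 1)).2.1.1 = (convs x n).1.1 := rfl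
    have e3 : (convs x (n + 1)).2.2.1 = (convs x n).2.1.1 := rfl
    rw [e1, e2, e3]
    have hb : (1 : ℤ) ≤ (dig (T^[n] x)).2 := by exact_mod_cast (hx.iter n).dig_valid.1
    have ha : (0 : ℤ) ≤ (dig (T^[n] x)).1 := by positivity
    push_cast
    nlinarith [mul_nonneg ha h2]

lemma exists_large {x : ℝ × ℝ} (hx : Adm x) (N : ℝ) : ∃ n, N ≤ (convs x n).1.1 := by
  obtain ⟨n, hn⟩ := exists_nat_ge (3 * N)
  refine ⟨n, ?_⟩
  have h1 := convs_sum hx n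
  obtain ⟨h2, h3, h4, h5, h6, h7⟩ := convs_good hx n
  have h8 : (n : ℤ) ≤ 3 * (convs x n).1.1 := by linarith
  have h9 : (n : ℝ) ≤ 3 * (convs x n).1.1 := by exact_mod_cast h8
  linarith

end Pool.Agent.H19.JP
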