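import Pool.Agent.H19.JP.Osc

/-!
Almost everywhere divergence.
-/

set_option autoImplicit false

namespace Pool.Agent.H19.JP

open MeasureTheory Set Filter Topology

lemma wd_take (x : ℝ × ℝ) {i n : ℕ} (h : i ≤ n) : wd x i = (wd x n).take i := by
  obtain ⟨k, rfl⟩ : ∃ k, n = i + k := ⟨n - i, by omega⟩
  rw [wd_add]
  rw [List.take_left' (wd_length x i)]

lemma convs_cyl {w : List (ℕ × ℕ)} {x y : ℝ × ℝ} (hx : x ∈ cyl w) (hy : y ∈ cyl w) {i : ℕ}
    (hi : i ≤ w.length) : convs x i = convs y i := by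
  rw [convs_eq, convs_eq, wd_take x hi, wd_take y hi, hx.2, hy.2]

/-- small oscillation between the times `m` and `n` -/
def Emn (m n : ℕ) : Set (ℝ × ℝ) :=
  {x | Adm x ∧ ∀ i, m ≤ i → i ≤ n → |ratio (convs x i).1 - ratio (convs x m).1| < eps0 / 2}

/-- small oscillation after the time `m` -/
def Em (m : ℕ) : Set (ℝ × ℝ) :=
  {x | Adm x ∧ ∀ i, m ≤ i → |ratio (convs x i).1 - ratio (convs x m).1| < eps0 / 2}

lemma Em_eq (m : ℕ) : Em m = ⋂ n, Emn m n := by
  ext x
  simp only [Em, Emn, mem_ofPred_eq, mem_iInter]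
  constructor
  · rintro ⟨h1, h2⟩ n
    exact ⟨h1, fun i hi _ => h2 i hi⟩
  · intro h
    exact ⟨(h 0).1, fun i hi => (h i).2 i hi le_rfl⟩

lemma Emn_eq {m n : ℕ} (hmn : m ≤ n) :
    Emn m n = ⋃ w ∈ {w : List (ℕ × ℕ) | w.length = n ∧ (cyl w ∩ Emn m n).Nonempty}, cyl w := by
  ext x
  rw [mem_iUnion₂]
  constructor
  · intro hx
    have h1 : x ∈ cyl (wd x n) := ⟨hx.1, by rw [wd_length]⟩
    exact ⟨wd x n, ⟨wd_length x n, ⟨x, h1, hx⟩⟩, h1⟩
  · rintro ⟨w, ⟨h1, y, hy1, hy2⟩, hx⟩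
    refine ⟨hx.1, fun i hi1 hi2 => ?_⟩
    rw [convs_cyl hx hy1 (by omega), convs_cyl hx hy1 (i := m) (by omega)]
    exact hy2.2 i hi1 hi2

lemma measurableSet_Emn {m n : ℕ} (hmn : m ≤ n) : MeasurableSet (Emn m n) := by
  rw [Emn_eq hmn]
  exact MeasurableSet.biUnion (Set.to_countable _) (fun w _ => measurableSet_cyl w)

lemma Emn_anti (m : ℕ) {n n' : ℕ} (h : n ≤ n') : Emn m n' ⊆ Emn m n :=
  fun _ hx => ⟨hx.1, fun i hi1 hi2 => hx.2 i hi1 (hi2.trans h)⟩

lemma Em_subset (m n : ℕ) : Em m ⊆ Emn m n := by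
  rw [Em_eq]; exact iInter_subset _ _

lemma Em_eq' (m : ℕ) : Em m = ⋂ n, Emn m (m + n) := by
  apply subset_antisymm
  · exact subset_iInter fun n => Em_subset m _
  · rw [Em_eq]
    apply subset_iInter
    intro n
    exact (iInter_subset _ n).trans (Emn_anti m (by omega))

lemma measurableSet_Em (m : ℕ) : MeasurableSet (Em m) := by
  rw [Em_eq']
  exact MeasurableSet.iInter fun n => measurableSet_Emn (by omega)

lemma volume_Em_cyl {m : ℕ} {w : List (ℕ × ℕ)} (hw : adw w) (hm : m ≤ w.length) :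
    volume (Em m ∩ cyl w) ≤ ENNReal.ofReal (1 - 1 / 10 ^ 7) * volume (cyl w) := by
  have hfin : volume (cyl w) ≠ ⊤ :=
    ne_top_of_le_ne_top (isCompact_KK hw).measure_lt_top.ne (measure_mono (cyl_subset_KK hw))
  obtain ⟨O, hO⟩ : ∃ O, O = {x ∈ cyl w | ∃ i ≥ w.length,
    eps0 ≤ |ratio (convs x i).1 - ratio (st w).1|} := ⟨_, rfl⟩
  have h1 := osc hw
  rw [← hO] at h1
  have hdisj : Disjoint (Em m ∩ cyl w) O := by
    rw [Set.disjoint_left]
    rintro x ⟨hx1, hx2⟩ hx3
    rw [hO] at hx3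
    obtain ⟨_, i, hi, hx4⟩ := hx3
    have h2 : convs x w.length = st w := by rw [convs_eq, hx2.2]
    rw [← h2] at hx4
    have h3 := hx1.2 i (hm.trans hi)
    have h4 := hx1.2 w.length hm
    have h5 : |ratio (convs x i).1 - ratio (convs x w.length).1| < eps0 := by
      calc _ = |(ratio (convs x i).1 - ratio (convs x m).1) -
            (ratio (convs x w.length).1 - ratio (convs x m).1)| := by ring_nf
        _ ≤ |ratio (convs x i).1 - ratio (convs x m).1| +
            |ratio (convs x w.length).1 - ratio (convs x m).1| := abs_sub _ _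
        _ < eps0 / 2 + eps0 / 2 := add_lt_add h3 h4
        _ = eps0 := by ring
    linarith
  have h2 : volume (Em m ∩ cyl w) + volume O ≤ volume (cyl w) := by
    rw [← measure_union' hdisj ((measurableSet_Em m).inter (measurableSet_cyl w))]
    apply measure_mono
    apply union_subset inter_subset_right
    rw [hO]
    exact fun x hx => hx.1
  have h3 : volume (Em m ∩ cyl w) + ENNReal.ofReal (1 / 10 ^ 7) * volume (cyl w) ≤
      ENNReal.ofReal (1 - 1 / 10 ^ 7) * volume (cyl w) +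
        ENNReal.ofReal (1 / 10 ^ 7) * volume (cyl w) := by
    rw [← add_mul, ← ENNReal.ofReal_add (by norm_num) (by norm_num)]
    have : (1 - 1 / 10 ^ 7 + 1 / 10 ^ 7 : ℝ) = 1 := by norm_num
    rw [this, ENNReal.ofReal_one, one_mul]
    exact le_trans (by gcongr) h2
  exact (ENNReal.add_le_add_iff_right (ENNReal.mul_ne_top ENNReal.ofReal_ne_top hfin)).mp h3

lemma volume_Em_le {m n : ℕ} (hmn : m ≤ n) :
    volume (Em m) ≤ ENNReal.ofReal (1 - 1 / 10 ^ 7) * volume (Emn m n) := by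
  obtain ⟨W, hW⟩ : ∃ W : Set (List (ℕ × ℕ)), W = {w : List (ℕ × ℕ) | w.length = n ∧
    (cyl w ∩ Emn m n).Nonempty} := ⟨_, rfl⟩
  have hE : Emn m n = ⋃ w ∈ W, cyl w := by rw [hW]; exact Emn_eq hmn
  have hc : W.Countable := Set.to_countable _
  have hdisj : W.PairwiseDisjoint cyl := by
    intro w hw w' hw' hne
    rw [Function.onFun, Set.disjoint_left]
    rintro x ⟨hx1, hx2⟩ ⟨hx3, hx4⟩
    rw [hW] at hw hw'
    apply hne
    rw [← hx2, ← hx4, hw.1, hw'.1]
  have hsub : Em m ⊆ ⋃ w ∈ W, (Em m ∩ cyl w) := by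
    intro x hx
    have h1 := Em_subset m n hx
    rw [hE, mem_iUnion₂] at h1
    obtain ⟨w, hw, hxw⟩ := h1
    rw [mem_iUnion₂]
    exact ⟨w, hw, hx, hxw⟩
  calc volume (Em m) ≤ volume (⋃ w ∈ W, (Em m ∩ cyl w)) := measure_mono hsub
    _ ≤ ∑' w : W, volume (Em m ∩ cyl w) := measure_biUnion_le volume hc _
    _ ≤ ∑' w : W, ENNReal.ofReal (1 - 1 / 10 ^ 7) * volume (cyl w) := by
        apply ENNReal.tsum_le_tsum
        rintro ⟨w, hw⟩
        rw [hW] at hw
        obtain ⟨h1, x, hx, _⟩ := hw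
        exact volume_Em_cyl (adw_of_mem_cyl hx) (by rw [h1]; exact hmn)
    _ = ENNReal.ofReal (1 - 1 / 10 ^ 7) * ∑' w : W, volume (cyl w) := ENNReal.tsum_mul_left
    _ = _ := by
        rw [hE, measure_biUnion hc hdisj (fun w _ => measurableSet_cyl w)]

lemma volume_Em (m : ℕ) : volume (Em m) = 0 := by
  have hfin : volume (Emn m (m + 0)) ≠ ⊤ := by
    apply ne_top_of_le_ne_top (b := volume I2) (by rw [volume_I2]; norm_num)
    exact measure_mono fun x hx => hx.1.mem_I2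
  have hanti : Antitone (fun n => Emn m (m + n)) := fun n n' h => Emn_anti m (by omega)
  have hlim := tendsto_measure_iInter_atTop (μ := (volume : Measure (ℝ × ℝ)))
    (s := fun n => Emn m (m + n))
    (fun n => (measurableSet_Emn (show m ≤ m + n by omega)).nullMeasurableSet) hanti ⟨0, hfin⟩
  rw [← Em_eq'] at hlim
  have h1 : volume (Em m) ≤ ENNReal.ofReal (1 - 1 / 10 ^ 7) * volume (Em m) := by
    apply ge_of_tendsto' (ENNReal.Tendsto.const_mul hlim (Or.inr ENNReal.ofReal_ne_top))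
    intro n
    exact volume_Em_le (by omega)
  have hfin2 : volume (Em m) ≠ ⊤ := ne_top_of_le_ne_top hfin (measure_mono (Em_subset m _))
  have h2 := ENNReal.toReal_mono (ENNReal.mul_ne_top ENNReal.ofReal_ne_top hfin2) h1
  rw [ENNReal.toReal_mul, ENNReal.toReal_ofReal (by norm_num)] at h2
  have h3 : 0 ≤ (volume (Em m)).toReal := ENNReal.toReal_nonneg
  have h4 : (volume (Em m)).toReal = 0 := by nlinarith
  rcases (ENNReal.toReal_eq_zero_iff _).mp h4 with h | h
  · exact h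
  · exact absurd h hfin2

/-- **almost everywhere the ratios oscillate** -/
theorem ae_osc : ∀ᵐ x ∂(volume.restrict I2), Adm x ∧ ∀ m : ℕ, ∃ i ≥ m, ∃ j ≥ m,
    eps0 / 2 ≤ |ratio (convs x i).1 - ratio (convs x j).1| := by
  have h1 : ∀ᵐ x ∂(volume.restrict I2), Adm x := by
    rw [ae_restrict_iff' measurableSet_I2, ae_iff]
    refine measure_mono_null ?_ volume_not_adm
    intro x hx
    simp only [mem_ofPred_eq, Classical.not_imp] at hx
    exact hx
  have h2 : ∀ᵐ x ∂(volume.restrict I2), ∀ m, x ∉ Em m := by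
    rw [ae_all_iff]
    intro m
    exact ae_restrict_of_ae (measure_eq_zero_iff_ae_notMem.mp (volume_Em m))
  filter_upwards [h1, h2] with x hx1 hx2
  refine ⟨hx1, fun m => ?_⟩
  by_contra hcon
  push Not at hcon
  exact hx2 m ⟨hx1, fun i hi => hcon i hi m le_rfl⟩

end Pool.Agent.H19.JP
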