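import Mathlib

/-!
Shortest vectors of the modular lattices `⟨(p, r), (q, 0), (0, q)⟩`.
-/

set_option autoImplicit false

namespace Pool.Agent.H19.JP

/-- the length of a shortest nonzero vector of the lattice generated by `(p, r)`, `(q, 0)`,
`(0, q)` -/
noncomputable def lam (q p r : ℤ) : ℝ :=
  sInf {d : ℝ | ∃ k l m : ℤ, (k * p + l * q ≠ 0 ∨ k * r + m * q ≠ 0) ∧
    d = Real.sqrt (((k * p + l * q : ℤ) : ℝ) ^ 2 + ((k * r + m * q : ℤ) : ℝ) ^ 2)}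

/-- membership in the lattice -/
def IsVec (q p r x y : ℤ) : Prop := ∃ k l m : ℤ, x = k * p + l * q ∧ y = k * r + m * q

lemma isVec_iff {q p r : ℤ} (hco : ∃ a b e : ℤ, a * p + b * r + e * q = 1) (x y : ℤ) :
    IsVec q p r x y ↔ ∃ c : ℤ, y * p - x * r = c * q := by
  constructor
  · rintro ⟨k, l, m, rfl, rfl⟩
    exact ⟨m * p - l * r, by ring⟩
  · rintro ⟨c, hc⟩
    obtain ⟨a, b, e, h⟩ := hco
    refine ⟨a * x + b * y, e * x - b * c, a * c + e * y, ?_, ?_⟩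
    · linear_combination (-x) * h - b * hc
    · linear_combination (-y) * h + a * hc

lemma lam_eq (q p r : ℤ) : lam q p r = sInf {d : ℝ | ∃ x y : ℤ, IsVec q p r x y ∧
    (x ≠ 0 ∨ y ≠ 0) ∧ d = Real.sqrt ((x : ℝ) ^ 2 + (y : ℝ) ^ 2)} := by
  unfold lam IsVec
  congr 1
  ext d
  constructor
  · rintro ⟨k, l, m, h1, h2⟩
    exact ⟨_, _, ⟨k, l, m, rfl, rfl⟩, h1, h2⟩
  · rintro ⟨x, y, ⟨k, l, m, rfl, rfl⟩, h1, h2⟩
    exact ⟨k, l, m, h1, h2⟩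

lemma lam_nonneg (q p r : ℤ) : 0 ≤ lam q p r := by
  apply Real.sInf_nonneg
  rintro d ⟨k, l, m, _, rfl⟩
  exact Real.sqrt_nonneg _

/-- a shortest vector exists -/
lemma exists_short {q p r : ℤ} (hq : 0 < q) : ∃ x y : ℤ, IsVec q p r x y ∧ (x ≠ 0 ∨ y ≠ 0) ∧
    lam q p r = Real.sqrt ((x : ℝ) ^ 2 + (y : ℝ) ^ 2) ∧
    ∀ x' y' : ℤ, IsVec q p r x' y' → (x' ≠ 0 ∨ y' ≠ 0) → x ^ 2 + y ^ 2 ≤ x' ^ 2 + y' ^ 2 := by
  classical
  obtain ⟨S, hS⟩ : ∃ S : Set ℕ, S = {n : ℕ | ∃ x y : ℤ, IsVec q p r x y ∧ (x ≠ 0 ∨ y ≠ 0) ∧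
    (n : ℤ) = x ^ 2 + y ^ 2} := ⟨_, rfl⟩
  have hne : S.Nonempty := by
    refine ⟨(q ^ 2).toNat, ?_⟩
    rw [hS]
    refine ⟨q, 0, ⟨0, 1, 0, by ring, by ring⟩, Or.inl hq.ne', ?_⟩
    rw [Int.toNat_of_nonneg (by positivity)]
    ring
  have hmin := Nat.sInf_mem hne
  obtain ⟨n, hn⟩ : ∃ n, n = sInf S := ⟨_, rfl⟩
  rw [← hn] at hmin
  have hle : ∀ k ∈ S, n ≤ k := fun k hk => by rw [hn]; exact Nat.sInf_le hk
  rw [hS] at hmin
  obtain ⟨x, y, h1, h2, h3⟩ := hmin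
  have hmin' : ∀ x' y' : ℤ, IsVec q p r x' y' → (x' ≠ 0 ∨ y' ≠ 0) →
      x ^ 2 + y ^ 2 ≤ x' ^ 2 + y' ^ 2 := by
    intro x' y' h4 h5
    have h6 : (x' ^ 2 + y' ^ 2).toNat ∈ S := by
      rw [hS]
      exact ⟨x', y', h4, h5, Int.toNat_of_nonneg (by positivity)⟩
    have h7 := hle _ h6
    have h8 : (n : ℤ) ≤ x' ^ 2 + y' ^ 2 := by
      rw [← Int.toNat_of_nonneg (show 0 ≤ x' ^ 2 + y' ^ 2 by positivity)]
      exact_mod_cast h7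
    rw [← h3]; exact h8
  refine ⟨x, y, h1, h2, ?_, hmin'⟩
  rw [lam_eq]
  apply IsLeast.csInf_eq
  constructor
  · exact ⟨x, y, h1, h2, rfl⟩
  · rintro d ⟨x', y', h4, h5, rfl⟩
    apply Real.sqrt_le_sqrt
    exact_mod_cast hmin' x' y' h4 h5

/-- the normal form used for counting -/
lemma exists_short' {q p r : ℤ} (hq : 0 < q) (hco : ∃ a b e : ℤ, a * p + b * r + e * q = 1) :
    ∃ x y c : ℤ, (x ≠ 0 ∨ y ≠ 0) ∧ y * p - x * r = c * q ∧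
      lam q p r = Real.sqrt ((x : ℝ) ^ 2 + (y : ℝ) ^ 2) ∧
      ∀ d : ℤ, d ∣ x → d ∣ y → d ∣ c → d ∣ 1 := by
  obtain ⟨x, y, h1, h2, h3, h4⟩ := exists_short (p := p) (r := r) hq
  obtain ⟨c, hc⟩ := (isVec_iff hco x y).1 h1
  refine ⟨x, y, c, h2, hc, h3, ?_⟩
  rintro d ⟨x', rfl⟩ ⟨y', rfl⟩ ⟨c', rfl⟩
  by_cases hd : d = 0
  · subst hd; simp at h2
  have h5 : y' * p - x' * r = c' * q := by
    apply mul_left_cancel₀ hd
    linear_combination hc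
  have h6 : x' ≠ 0 ∨ y' ≠ 0 := by
    rcases h2 with h | h
    · left; rintro rfl; exact h (mul_zero _)
    · right; rintro rfl; exact h (mul_zero _)
  have h7 := h4 x' y' ((isVec_iff hco x' y').2 ⟨c', h5⟩) h6
  have h8 : 0 < x' ^ 2 + y' ^ 2 := by
    rcases h6 with h | h
    · have : 0 < x' ^ 2 := by positivity
      nlinarith [sq_nonneg y']
    · have : 0 < y' ^ 2 := by positivity
      nlinarith [sq_nonneg x']
  have h9 : d ^ 2 ≤ 1 := by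
    by_contra hcon
    push Not at hcon
    have : d ^ 2 * (x' ^ 2 + y' ^ 2) ≤ x' ^ 2 + y' ^ 2 := by nlinarith
    nlinarith
  have h10 : d = 1 ∨ d = -1 := by
    have h11 : -1 ≤ d := by nlinarith
    have h12 : d ≤ 1 := by nlinarith
    omega
  rcases h10 with rfl | rfl <;> decide

/-- the bound of Dirichlet -/
lemma lam_le {q p r : ℤ} (hq : 0 < q) (hco : ∃ a b e : ℤ, a * p + b * r + e * q = 1) :
    lam q p r ≤ Real.sqrt (2 * q) := by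
  classical
  obtain ⟨n, rfl⟩ : ∃ n : ℕ, q = n := ⟨q.toNat, (Int.toNat_of_nonneg hq.le).symm⟩
  have hn : 0 < n := by exact_mod_cast hq
  obtain ⟨m, hm⟩ : ∃ m, m = Nat.sqrt n := ⟨_, rfl⟩
  have h1 : n < (m + 1) * (m + 1) := by rw [hm]; exact Nat.lt_succ_sqrt n
  have h2 : m * m ≤ n := by rw [hm]; exact Nat.sqrt_le n
  have hcard : (Finset.Ico (0 : ℤ) n).card <
      (Finset.range (m + 1) ×ˢ Finset.range (m + 1)).card := by
    rw [Finset.card_product, Finset.card_range]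
    simpa using h1
  obtain ⟨u, hu, v, hv, huv, he⟩ := Finset.exists_ne_map_eq_of_card_lt_of_maps_to hcard
    (f := fun z : ℕ × ℕ => ((z.2 : ℤ) * p - z.1 * r) % n) (by
      intro z _
      simp only [Finset.coe_Ico, Set.mem_Ico]
      exact ⟨Int.emod_nonneg _ (by exact_mod_cast hn.ne'), Int.emod_lt_of_pos _ hq⟩)
  rw [Finset.mem_product, Finset.mem_range, Finset.mem_range] at hu hv
  have h3 : (n : ℤ) ∣ ((u.2 : ℤ) * p - u.1 * r) - ((v.2 : ℤ) * p - v.1 * r) :=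
    Int.ModEq.dvd (Int.ModEq.symm he)
  obtain ⟨c, hc⟩ := h3
  have hvec : IsVec n p r ((u.1 : ℤ) - v.1) ((u.2 : ℤ) - v.2) :=
    (isVec_iff hco _ _).2 ⟨c, by linear_combination hc⟩
  have hne : ((u.1 : ℤ) - v.1) ≠ 0 ∨ ((u.2 : ℤ) - v.2) ≠ 0 := by
    by_contra hcon
    push Not at hcon
    apply huv
    ext <;> omega
  rw [lam_eq]
  have h4 : sInf {d : ℝ | ∃ x y : ℤ, IsVec n p r x y ∧
      (x ≠ 0 ∨ y ≠ 0) ∧ d = Real.sqrt ((x : ℝ) ^ 2 + (y : ℝ) ^ 2)} ≤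
      Real.sqrt ((((u.1 : ℤ) - v.1 : ℤ) : ℝ) ^ 2 + (((u.2 : ℤ) - v.2 : ℤ) : ℝ) ^ 2) := by
    apply csInf_le
    · refine ⟨0, ?_⟩
      rintro d ⟨x, y, _, _, rfl⟩
      exact Real.sqrt_nonneg _
    · exact ⟨_, _, hvec, hne, rfl⟩
  refine h4.trans (Real.sqrt_le_sqrt ?_)
  have h5 : ((u.1 : ℤ) - v.1) ^ 2 ≤ (m : ℤ) ^ 2 := by
    apply sq_le_sq'
    · omega
    · omega
  have h6 : ((u.2 : ℤ) - v.2) ^ 2 ≤ (m : ℤ) ^ 2 := by
    apply sq_le_sq'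
    · omega
    · omega
  have h7 : (m : ℤ) ^ 2 ≤ n := by
    rw [sq]; exact_mod_cast h2
  have h8 : ((u.1 : ℤ) - v.1) ^ 2 + ((u.2 : ℤ) - v.2) ^ 2 ≤ 2 * (n : ℤ) := by linarith
  exact_mod_cast h8

end Pool.Agent.H19.JP
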