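import Pool.Agent.H19.JP.Dyn

/-!
Measures of the cylinders of the Jacobi–Perron algorithm.
-/

set_option autoImplicit false

namespace Pool.Agent.H19.JP

open MeasureTheory Set

/-- the derivative of a projective map -/
noncomputable def dF (S : (ℤ × ℤ × ℤ) × (ℤ × ℤ × ℤ) × (ℤ × ℤ × ℤ)) (t : ℝ × ℝ) :
    ℝ × ℝ →L[ℝ] ℝ × ℝ :=
  LinearMap.toContinuousLinearMap (Matrix.toLin (Module.Basis.finTwoProd ℝ)
    (Module.Basis.finTwoProd ℝ)
    !![(S.2.2.2.1 * den S t - (S.1.2.1 + t.1 * S.2.2.2.1 + t.2 * S.2.1.2.1) * S.2.2.1) /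
        den S t ^ 2,
      (S.2.1.2.1 * den S t - (S.1.2.1 + t.1 * S.2.2.2.1 + t.2 * S.2.1.2.1) * S.2.1.1) /
        den S t ^ 2;
      (S.2.2.2.2 * den S t - (S.1.2.2 + t.1 * S.2.2.2.2 + t.2 * S.2.1.2.2) * S.2.2.1) /
        den S t ^ 2,
      (S.2.1.2.2 * den S t - (S.1.2.2 + t.1 * S.2.2.2.2 + t.2 * S.2.1.2.2) * S.2.1.1) /
        den S t ^ 2])

lemma hasFDerivAt_lin (a b c : ℝ) (t : ℝ × ℝ) :
    HasFDerivAt (fun t : ℝ × ℝ => a + t.1 * b + t.2 * c)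
      (b • ContinuousLinearMap.fst ℝ ℝ ℝ + c • ContinuousLinearMap.snd ℝ ℝ ℝ) t := by
  have h1 : HasFDerivAt (fun t : ℝ × ℝ => t.1) (ContinuousLinearMap.fst ℝ ℝ ℝ) t := hasFDerivAt_fst
  have h2 : HasFDerivAt (fun t : ℝ × ℝ => t.2) (ContinuousLinearMap.snd ℝ ℝ ℝ) t := hasFDerivAt_snd
  exact ((h1.mul_const b).const_add a).add (h2.mul_const c)

lemma hasFDerivAt_frac (a b c a' b' c' : ℝ) (t : ℝ × ℝ) (h : a' + t.1 * b' + t.2 * c' ≠ 0) :
    HasFDerivAt (fun t : ℝ × ℝ => (a + t.1 * b + t.2 * c) / (a' + t.1 * b' + t.2 * c'))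
      (((b * (a' + t.1 * b' + t.2 * c') - (a + t.1 * b + t.2 * c) * b') /
        (a' + t.1 * b' + t.2 * c') ^ 2) • ContinuousLinearMap.fst ℝ ℝ ℝ +
       ((c * (a' + t.1 * b' + t.2 * c') - (a + t.1 * b + t.2 * c) * c') /
        (a' + t.1 * b' + t.2 * c') ^ 2) • ContinuousLinearMap.snd ℝ ℝ ℝ) t := by
  have h2 : HasFDerivAt (fun t : ℝ × ℝ => (a' + t.1 * b' + t.2 * c')⁻¹)
      ((-((a' + t.1 * b' + t.2 * c') ^ 2)⁻¹) •
        (b' • ContinuousLinearMap.fst ℝ ℝ ℝ + c' • ContinuousLinearMap.snd ℝ ℝ ℝ)) t :=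
    (hasDerivAt_inv h).comp_hasFDerivAt t (hasFDerivAt_lin a' b' c' t)
  have h3 : HasFDerivAt (fun t : ℝ × ℝ => (a + t.1 * b + t.2 * c) * (a' + t.1 * b' + t.2 * c')⁻¹)
      _ t := (hasFDerivAt_lin a b c t).mul h2
  simp only [div_eq_mul_inv]
  refine h3.congr_fderiv ?_
  ext
  · simp
    field_simp
    ring
  · simp
    field_simp
    ring

lemma hasFDerivAt_psiS (S) {t : ℝ × ℝ} (h : den S t ≠ 0) :
    HasFDerivAt (psiS S) (dF S t) t := by
  unfold dF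
  rw [Matrix.toLin_finTwoProd_toContinuousLinearMap]
  unfold den at h
  exact (hasFDerivAt_frac _ _ _ _ _ _ t h).prodMk (hasFDerivAt_frac _ _ _ _ _ _ t h)

lemma det_dF {S} (hS : det S = -1) {t : ℝ × ℝ} (h : den S t ≠ 0) :
    |(dF S t).det| = 1 / |den S t| ^ 3 := by
  have hdet : (S.1.1 : ℝ) * (S.2.1.2.1 * S.2.2.2.2 - S.2.1.2.2 * S.2.2.2.1) -
    S.2.1.1 * (S.1.2.1 * S.2.2.2.2 - S.1.2.2 * S.2.2.2.1) +
    S.2.2.1 * (S.1.2.1 * S.2.1.2.2 - S.1.2.2 * S.2.1.2.1) = -1 := by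
    unfold det at hS
    exact_mod_cast hS
  have : (dF S t).det = 1 / (den S t) ^ 3 := by
    unfold dF
    rw [LinearMap.det_toContinuousLinearMap, LinearMap.det_toLin, Matrix.det_fin_two_of]
    have hd : den S t = S.1.1 + t.1 * S.2.2.1 + t.2 * S.2.1.1 := rfl
    field_simp
    rw [hd]
    linear_combination (-((S.1.1 : ℝ) + t.1 * S.2.2.1 + t.2 * S.2.1.1)) * hdet
  rw [this, abs_div, abs_one, abs_pow]

lemma psiS_injOn {S} (hS : Good S) : InjOn (psiS S) {t | 0 ≤ t.1 ∧ 0 ≤ t.2} := by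
  intro t ht t' ht' he
  have hD := den_pos' hS ht.1 ht.2
  have hD' := den_pos' hS ht'.1 ht'.2
  have hdet : (S.1.1 : ℝ) * (S.2.1.2.1 * S.2.2.2.2 - S.2.1.2.2 * S.2.2.2.1) -
    S.2.1.1 * (S.1.2.1 * S.2.2.2.2 - S.1.2.2 * S.2.2.2.1) +
    S.2.2.1 * (S.1.2.1 * S.2.1.2.2 - S.1.2.2 * S.2.1.2.1) = -1 := by
    have := hS.2.2.2.2.2
    unfold det at this
    exact_mod_cast this
  have hd : den S t = S.1.1 + t.1 * S.2.2.1 + t.2 * S.2.1.1 := rfl
  have hd' : den S t' = S.1.1 + t'.1 * S.2.2.1 + t'.2 * S.2.1.1 := rfl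
  obtain ⟨X, hX⟩ : ∃ X, X = (psiS S t).1 := ⟨_, rfl⟩
  obtain ⟨Y, hY⟩ : ∃ Y, Y = (psiS S t).2 := ⟨_, rfl⟩
  have e1 : X * den S t = S.1.2.1 + t.1 * S.2.2.2.1 + t.2 * S.2.1.2.1 := by
    rw [hX]; unfold psiS; simp only; field_simp
  have e2 : Y * den S t = S.1.2.2 + t.1 * S.2.2.2.2 + t.2 * S.2.1.2.2 := by
    rw [hY]; unfold psiS; simp only; field_simp
  have e1' : X * den S t' = S.1.2.1 + t'.1 * S.2.2.2.1 + t'.2 * S.2.1.2.1 := by
    rw [hX, he]; unfold psiS; simp only; field_simp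
  have e2' : Y * den S t' = S.1.2.2 + t'.1 * S.2.2.2.2 + t'.2 * S.2.1.2.2 := by
    rw [hY, he]; unfold psiS; simp only; field_simp
  obtain ⟨f, hf⟩ : ∃ f : ℝ, f = (S.2.1.2.1 * S.2.2.2.2 - S.2.1.2.2 * S.2.2.2.1 : ℝ) +
    (S.2.1.2.2 * S.2.2.1 - S.2.1.1 * S.2.2.2.2) * X +
    (S.2.1.1 * S.2.2.2.1 - S.2.1.2.1 * S.2.2.1) * Y := ⟨_, rfl⟩
  have k1 : den S t * f = -1 := by
    rw [hf]
    linear_combination hdet + (S.2.1.2.1 * S.2.2.2.2 - S.2.1.2.2 * S.2.2.2.1 : ℝ) * hd +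
      (S.2.1.2.2 * S.2.2.1 - S.2.1.1 * S.2.2.2.2 : ℝ) * e1 +
      (S.2.1.1 * S.2.2.2.1 - S.2.1.2.1 * S.2.2.1 : ℝ) * e2
  have k1' : den S t' * f = -1 := by
    rw [hf]
    linear_combination hdet + (S.2.1.2.1 * S.2.2.2.2 - S.2.1.2.2 * S.2.2.2.1 : ℝ) * hd' +
      (S.2.1.2.2 * S.2.2.1 - S.2.1.1 * S.2.2.2.2 : ℝ) * e1' +
      (S.2.1.1 * S.2.2.2.1 - S.2.1.2.1 * S.2.2.1 : ℝ) * e2'
  have hf0 : f ≠ 0 := by
    rintro h
    rw [h, mul_zero] at k1
    norm_num at k1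
  have hDD : den S t = den S t' := by
    apply mul_right_cancel₀ hf0
    rw [k1, k1']
  rw [← hDD] at e1' e2' hd'
  -- the other coordinates
  have k2 : t.2 = t'.2 := by
    have j1 : (S.2.2.2.1 * S.1.2.2 - S.2.2.2.2 * S.1.2.1 : ℝ) * den S t +
        (S.2.2.2.2 * S.1.1 - S.2.2.1 * S.1.2.2) * (X * den S t) +
        (S.2.2.1 * S.1.2.1 - S.2.2.2.1 * S.1.1) * (Y * den S t) = -t.2 := by
      rw [e1, e2, hd]
      linear_combination t.2 * hdet
    have j2 : (S.2.2.2.1 * S.1.2.2 - S.2.2.2.2 * S.1.2.1 : ℝ) * den S t +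
        (S.2.2.2.2 * S.1.1 - S.2.2.1 * S.1.2.2) * (X * den S t) +
        (S.2.2.1 * S.1.2.1 - S.2.2.2.1 * S.1.1) * (Y * den S t) = -t'.2 := by
      rw [e1', e2', hd']
      linear_combination t'.2 * hdet
    linarith
  have k3 : t.1 = t'.1 := by
    have j1 : (S.1.2.1 * S.2.1.2.2 - S.1.2.2 * S.2.1.2.1 : ℝ) * den S t +
        (S.1.2.2 * S.2.1.1 - S.1.1 * S.2.1.2.2) * (X * den S t) +
        (S.1.1 * S.2.1.2.1 - S.1.2.1 * S.2.1.1) * (Y * den S t) = -t.1 := by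
      rw [e1, e2, hd]
      linear_combination t.1 * hdet
    have j2 : (S.1.2.1 * S.2.1.2.2 - S.1.2.2 * S.2.1.2.1 : ℝ) * den S t +
        (S.1.2.2 * S.2.1.1 - S.1.1 * S.2.1.2.2) * (X * den S t) +
        (S.1.1 * S.2.1.2.1 - S.1.2.1 * S.2.1.1) * (Y * den S t) = -t'.1 := by
      rw [e1', e2', hd']
      linear_combination t'.1 * hdet
    linarith
  exact Prod.ext k3 k2

lemma volume_image {S} (hS : Good S) {E : Set (ℝ × ℝ)} (hE : MeasurableSet E)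
    (hE1 : ∀ t ∈ E, 0 ≤ t.1 ∧ 0 ≤ t.2) :
    volume (psiS S '' E) = ∫⁻ t in E, ENNReal.ofReal (1 / |den S t| ^ 3) := by
  rw [← lintegral_abs_det_fderiv_eq_addHaar_image volume hE
    (fun t ht => (hasFDerivAt_psiS S (den_pos' hS (hE1 t ht).1 (hE1 t ht).2).ne').hasFDerivWithinAt)
    ((psiS_injOn hS).mono hE1)]
  apply setLIntegral_congr_fun hE
  intro t ht
  simp only
  rw [det_dF hS.2.2.2.2.2 (den_pos' hS (hE1 t ht).1 (hE1 t ht).2).ne']

lemma volume_image_le {S} (hS : Good S) {E : Set (ℝ × ℝ)} (hE : MeasurableSet E)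
    (hE1 : ∀ t ∈ E, 0 ≤ t.1 ∧ 0 ≤ t.2) :
    volume (psiS S '' E) ≤ ENNReal.ofReal (1 / (S.1.1 : ℝ) ^ 3) * volume E := by
  have hq : (0 : ℝ) < S.1.1 := by exact_mod_cast hS.1
  rw [volume_image hS hE hE1, ← setLIntegral_const]
  apply setLIntegral_mono_ae' hE
  apply Filter.Eventually.of_forall
  intro t ht
  have h1 := den_pos hS (hE1 t ht).1 (hE1 t ht).2
  have h2 := den_pos' hS (hE1 t ht).1 (hE1 t ht).2
  apply ENNReal.ofReal_le_ofReal
  rw [abs_of_pos h2]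
  gcongr

lemma le_volume_image {S} (hS : Good S) {E : Set (ℝ × ℝ)} (hE : MeasurableSet E)
    (hE1 : ∀ t ∈ E, 0 ≤ t.1 ∧ 0 ≤ t.2) (hE2 : ∀ t ∈ E, t.1 ≤ 1 ∧ t.2 ≤ 1) :
    ENNReal.ofReal (1 / (27 * (S.1.1 : ℝ) ^ 3)) * volume E ≤ volume (psiS S '' E) := by
  have hq : (0 : ℝ) < S.1.1 := by exact_mod_cast hS.1
  rw [volume_image hS hE hE1, ← setLIntegral_const]
  apply setLIntegral_mono_ae' hE
  apply Filter.Eventually.of_forall
  intro t ht
  have h1 := den_le hS (hE1 t ht).1 (hE1 t ht).2 (hE2 t ht).1 (hE2 t ht).2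
  have h2 := den_pos' hS (hE1 t ht).1 (hE1 t ht).2
  apply ENNReal.ofReal_le_ofReal
  rw [abs_of_pos h2]
  have h3 : 27 * (S.1.1 : ℝ) ^ 3 = (3 * S.1.1) ^ 3 := by ring
  rw [h3]
  gcongr

/-! ### admissible points -/

lemma null_line (k l m : ℤ) (h : ¬ (k = 0 ∧ l = 0 ∧ m = 0)) :
    volume {x : ℝ × ℝ | (k : ℝ) + l * x.1 + m * x.2 = 0} = 0 := by
  by_cases hm : m = 0
  · by_cases hl : l = 0
    · have hk : k ≠ 0 := fun hk => h ⟨hk, hl, hm⟩
      have : {x : ℝ × ℝ | (k : ℝ) + l * x.1 + m * x.2 = 0} = ∅ := by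
        ext x
        simp [hm, hl, hk]
      rw [this, measure_empty]
    · have hl' : (l : ℝ) ≠ 0 := by exact_mod_cast hl
      have : {x : ℝ × ℝ | (k : ℝ) + l * x.1 + m * x.2 = 0} ⊆
          ({-(k : ℝ) / l} : Set ℝ) ×ˢ (univ : Set ℝ) := by
        intro x hx
        simp only [mem_ofPred_eq, hm, Int.cast_zero, zero_mul, add_zero] at hx
        simp only [mem_prod, mem_singleton_iff, mem_univ, and_true]
        field_simp
        linarith
      apply measure_mono_null this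
      rw [Measure.volume_eq_prod, Measure.prod_prod]
      simp
  · have hm' : (m : ℝ) ≠ 0 := by exact_mod_cast hm
    rw [Measure.volume_eq_prod, Measure.measure_prod_null]
    · apply Filter.Eventually.of_forall
      intro x
      simp only [Pi.zero_apply]
      have : Prod.mk x ⁻¹' {x : ℝ × ℝ | (k : ℝ) + l * x.1 + m * x.2 = 0} ⊆
          {-((k : ℝ) + l * x) / m} := by
        intro y hy
        simp only [mem_preimage, mem_ofPred_eq] at hy
        simp only [mem_singleton_iff]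
        field_simp
        linarith
      exact measure_mono_null this (by simp)
    · exact measurableSet_eq_fun (by fun_prop) (by fun_prop)

/-- the open unit square -/
def I2 : Set (ℝ × ℝ) := Ioo 0 1 ×ˢ Ioo 0 1

lemma measurableSet_I2 : MeasurableSet I2 := measurableSet_Ioo.prod measurableSet_Ioo

lemma volume_I2 : volume I2 = 1 := by
  unfold I2
  rw [Measure.volume_eq_prod, Measure.prod_prod, Real.volume_Ioo]
  simp

lemma Adm.mem_I2 {x : ℝ × ℝ} (hx : Adm x) : x ∈ I2 :=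
  ⟨⟨hx.1, hx.2.1⟩, ⟨hx.2.2.1, hx.2.2.2.1⟩⟩

lemma measurableSet_adm : MeasurableSet {x | Adm x} := by
  have h1 : {x | Adm x} = I2 ∩ ⋂ (k : ℤ) (l : ℤ) (m : ℤ),
      {x : ℝ × ℝ | (k : ℝ) + l * x.1 + m * x.2 = 0 → k = 0 ∧ l = 0 ∧ m = 0} := by
    ext x
    simp only [mem_ofPred_eq, Adm, I2, mem_inter_iff, mem_prod, mem_Ioo, mem_iInter]
    tauto
  rw [h1]
  apply measurableSet_I2.inter
  refine MeasurableSet.iInter fun k => MeasurableSet.iInter fun l => MeasurableSet.iInter fun m => ?_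
  by_cases h : k = 0 ∧ l = 0 ∧ m = 0
  · simp [h]
  · have : {x : ℝ × ℝ | (k : ℝ) + l * x.1 + m * x.2 = 0 → k = 0 ∧ l = 0 ∧ m = 0} =
        {x : ℝ × ℝ | (k : ℝ) + l * x.1 + m * x.2 = 0}ᶜ := by
      ext x
      simp only [mem_ofPred_eq, mem_compl_iff]
      tauto
    rw [this]
    exact (measurableSet_eq_fun (by fun_prop) (by fun_prop)).compl

lemma volume_not_adm : volume (I2 \ {x | Adm x}) = 0 := by
  have h1 : I2 \ {x | Adm x} ⊆ ⋃ (k : ℤ) (l : ℤ) (m : ℤ) (_ : ¬ (k = 0 ∧ l = 0 ∧ m = 0)),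
      {x : ℝ × ℝ | (k : ℝ) + l * x.1 + m * x.2 = 0} := by
    rintro x ⟨⟨⟨h1, h2⟩, ⟨h3, h4⟩⟩, h5⟩
    simp only [mem_ofPred_eq, Adm, not_and, not_forall] at h5
    obtain ⟨k, l, m, h6, h7⟩ := h5 h1 h2 h3 h4
    simp only [mem_iUnion]
    exact ⟨k, l, m, fun h => h7 h.1 h.2.1 h.2.2, h6⟩
  apply measure_mono_null h1
  rw [measure_iUnion_null_iff]
  intro k
  rw [measure_iUnion_null_iff]
  intro l
  rw [measure_iUnion_null_iff]
  intro m
  rw [measure_iUnion_null_iff]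
  intro h
  exact null_line k l m h

lemma volume_inter_adm {E : Set (ℝ × ℝ)} (hE : E ⊆ I2) : volume (E ∩ {x | Adm x}) = volume E := by
  apply le_antisymm (measure_mono inter_subset_left)
  have h1 : E ⊆ (E ∩ {x | Adm x}) ∪ (I2 \ {x | Adm x}) := by
    intro x hx
    by_cases h : Adm x
    · exact Or.inl ⟨hx, h⟩
    · exact Or.inr ⟨hE hx, h⟩
  calc volume E ≤ volume ((E ∩ {x | Adm x}) ∪ (I2 \ {x | Adm x})) := measure_mono h1
    _ ≤ volume (E ∩ {x | Adm x}) + volume (I2 \ {x | Adm x}) := measure_union_le _ _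
    _ = _ := by rw [volume_not_adm, add_zero]

/-! ### measurability -/

lemma measurable_T : Measurable T := by
  unfold T
  exact (measurable_fract.comp (measurable_snd.div measurable_fst)).prodMk
    (measurable_fract.comp (measurable_const.div measurable_fst))

lemma measurable_dig : Measurable dig := by
  unfold dig
  exact (Nat.measurable_floor.comp (measurable_snd.div measurable_fst)).prodMk
    (Nat.measurable_floor.comp (measurable_const.div measurable_fst))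

lemma measurableSet_wd (n : ℕ) (w : List (ℕ × ℕ)) : MeasurableSet {x | wd x n = w} := by
  induction n generalizing w with
  | zero =>
    by_cases h : ([] : List (ℕ × ℕ)) = w <;> simp [wd, h]
  | succ n ih =>
    have h1 : {x | wd x (n + 1) = w} = ⋃ (w' : List (ℕ × ℕ)) (l : ℕ × ℕ) (_ : w' ++ [l] = w),
        ({x | wd x n = w'} ∩ (fun x => dig (T^[n] x)) ⁻¹' {l}) := by
      ext x
      simp only [mem_ofPred_eq, wd, mem_iUnion, mem_inter_iff, mem_preimage, mem_singleton_iff]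
      constructor
      · intro h
        exact ⟨_, _, h, rfl, rfl⟩
      · rintro ⟨w', l, h, rfl, rfl⟩
        exact h
    rw [h1]
    refine MeasurableSet.iUnion fun w' => MeasurableSet.iUnion fun l => MeasurableSet.iUnion fun _ =>
      (ih w').inter ?_
    exact (measurable_dig.comp (measurable_T.iterate n)) (measurableSet_singleton l)

lemma measurableSet_cyl (w : List (ℕ × ℕ)) : MeasurableSet (cyl w) :=
  measurableSet_adm.inter (measurableSet_wd _ _)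

/-! ### measures of cylinders -/

lemma cyl_le (w : List (ℕ × ℕ)) {E : Set (ℝ × ℝ)} (hE : MeasurableSet E) :
    volume {x ∈ cyl w | T^[w.length] x ∈ E} ≤
      ENNReal.ofReal (1 / ((st w).1.1 : ℝ) ^ 3) * volume (E ∩ I2) := by
  rcases Set.eq_empty_or_nonempty {x ∈ cyl w | T^[w.length] x ∈ E} with h | ⟨x, hx⟩
  · rw [h, measure_empty]; exact zero_le
  · have hw := adw_of_mem_cyl hx.1
    refine le_trans (measure_mono ?_) (volume_image_le (good_st hw) (hE.inter measurableSet_I2)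
      (fun t ht => ⟨ht.2.1.1.le, ht.2.2.1.le⟩))
    rintro y ⟨⟨hy1, hy2⟩, hy3⟩
    have h1 := hy1.iter w.length
    refine ⟨T^[w.length] y, ⟨hy3, h1.mem_I2⟩, ?_⟩
    rw [psiS_st hw h1.1.le h1.2.2.1.le]
    have := hy1.psi_wd w.length
    rw [hy2] at this
    exact this

lemma le_cyl {w : List (ℕ × ℕ)} (hw : adw w) {E : Set (ℝ × ℝ)} (hE : MeasurableSet E)
    (hE2 : E ⊆ I2) (hl : ∀ l ∈ w.getLast?, l.1 = l.2 → ∀ t ∈ E, t.1 < t.2) :
    ENNReal.ofReal (1 / (27 * ((st w).1.1 : ℝ) ^ 3)) * volume E ≤ volume (cyl w) := by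
  rw [← volume_inter_adm hE2]
  refine le_trans (le_volume_image (good_st hw) (hE.inter measurableSet_adm)
    (fun t ht => ⟨ht.2.1.le, ht.2.2.2.1.le⟩) (fun t ht => ⟨ht.2.2.1.le, ht.2.2.2.2.1.le⟩)) ?_
  apply measure_mono
  rintro _ ⟨t, ht, rfl⟩
  rw [psiS_st hw ht.2.1.le ht.2.2.2.1.le]
  exact (psi_mem_cyl hw ht.2 (fun l h1 h2 => hl l h1 h2 t ht.1)).1

lemma le_cyl_of_last {w : List (ℕ × ℕ)} (hw : adw w) (hl : ∀ l ∈ w.getLast?, l.1 ≠ l.2) :
    ENNReal.ofReal (1 / (27 * ((st w).1.1 : ℝ) ^ 3)) ≤ volume (cyl w) := by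
  have := le_cyl hw measurableSet_I2 subset_rfl (fun l h1 h2 => absurd h2 (hl l h1))
  rwa [volume_I2, mul_one] at this

lemma le_cyl_all {w : List (ℕ × ℕ)} (hw : adw w) :
    ENNReal.ofReal (1 / (108 * ((st w).1.1 : ℝ) ^ 3)) ≤ volume (cyl w) := by
  have hE : MeasurableSet (Ioo (0 : ℝ) (1 / 2) ×ˢ Ioo (1 / 2 : ℝ) 1) :=
    measurableSet_Ioo.prod measurableSet_Ioo
  have := le_cyl hw hE (by
    rintro t ⟨⟨h1, h2⟩, ⟨h3, h4⟩⟩
    exact ⟨⟨h1, by linarith⟩, ⟨by linarith, h4⟩⟩) (fun l h1 h2 t ht => by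
      linarith [ht.1.2, ht.2.1])
  refine le_trans (le_of_eq ?_) this
  have hq : (0 : ℝ) < (st w).1.1 := by exact_mod_cast (good_st hw).1
  rw [Measure.volume_eq_prod, Measure.prod_prod, Real.volume_Ioo, Real.volume_Ioo,
    ← ENNReal.ofReal_mul (by norm_num), ← ENNReal.ofReal_mul (by positivity)]
  congr 1
  field_simp
  norm_num

end Pool.Agent.H19.JP
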