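import Pool.Agent.H19.JP.Core

/-!
Oscillation of the normalised shortest vectors on every cylinder.
-/

set_option autoImplicit false

namespace Pool.Agent.H19.JP

open MeasureTheory Set

/-- the minimal oscillation -/
noncomputable def eps0 : ℝ := 1 / 10 ^ 17

/-- the good words with nearly the same ratio -/
def BB (w : List (ℕ × ℕ)) (N s0 : ℝ) : Set (List (ℕ × ℕ)) :=
  {u | ∃ v ∈ VV w N, ∃ l ∈ LV N v, u = v ++ [l, (2, 3)] ∧ |ratio (st u).1 - s0| < eps0}

lemma cyl_subset {w : List (ℕ × ℕ)} {N : ℝ} (hN : ((st w).1.1 : ℝ) < N) :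
    cyl w ⊆ ⋃ v ∈ VV w N, SV N v := by
  classical
  rintro x ⟨hx1, hx2⟩
  have hex : ∃ n, N ≤ ((convs x n).1.1 : ℝ) := exists_large hx1 N
  obtain ⟨n, hn⟩ : ∃ n, n = Nat.find hex := ⟨_, rfl⟩
  have hn1 : N ≤ ((convs x n).1.1 : ℝ) := by rw [hn]; exact Nat.find_spec hex
  have hn2 : ∀ k < n, ((convs x k).1.1 : ℝ) < N := fun k hk => by
    rw [hn] at hk
    exact not_le.mp (Nat.find_min hex hk)
  have hw : ((convs x w.length).1.1 : ℝ) < N := by rw [convs_eq, hx2]; exact hN
  have hlt : w.length < n := by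
    by_contra hcon
    push Not at hcon
    have h1 := convs_mono hx1 hcon
    simp only at h1
    have h2 : ((convs x n).1.1 : ℝ) ≤ (convs x w.length).1.1 := by exact_mod_cast h1
    linarith
  obtain ⟨k, rfl⟩ : ∃ k, n = k + 1 := ⟨n - 1, by omega⟩
  rw [mem_iUnion₂]
  refine ⟨wd x k, ⟨?_, hx1.adw k, ?_⟩, ⟨hx1, ?_⟩, ?_⟩
  · obtain ⟨j, rfl⟩ : ∃ j, k = w.length + j := ⟨k - w.length, by omega⟩
    rw [wd_add, hx2]
    exact List.prefix_append _ _
  · rw [← convs_eq]; exact hn2 k (by omega)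
  · rw [wd_length]
  · rw [wd_length]; exact hn1

lemma GV_step {w v : List (ℕ × ℕ)} {N : ℝ} (hv : v ∈ VV w N) {x : ℝ × ℝ} (hx : x ∈ GV N v) :
    Adm x ∧ wd x v.length = v ∧ ((convs x v.length).1.1 : ℝ) < N ∧
      N ≤ ((convs x (v.length + 1)).1.1 : ℝ) := by
  unfold GV at hx
  rw [mem_iUnion₂] at hx
  obtain ⟨l, hl, hx⟩ := hx
  obtain ⟨h1, h2⟩ := mem_cyl_append hx
  have h3 : v ++ [l, (2, 3)] = (v ++ [l]) ++ [(2, 3)] := by simp
  have hx' := hx
  rw [h3] at hx'
  obtain ⟨h4, h5⟩ := mem_cyl_append hx'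
  refine ⟨h1.1, h1.2, by rw [h2]; exact hv.2.2, ?_⟩
  have h6 : (v ++ [l]).length = v.length + 1 := by simp
  rw [h6] at h5
  rw [h5, st_snoc]
  exact (q_two hv.2.1 hv.2.2 hl).2.2.1

lemma GV_disjoint (w : List (ℕ × ℕ)) (N : ℝ) : (VV w N).PairwiseDisjoint (GV N) := by
  intro v hv v' hv' hne
  rw [Function.onFun, Set.disjoint_left]
  intro x hx hx'
  obtain ⟨h1, h2, h3, h4⟩ := GV_step hv hx
  obtain ⟨k1, k2, k3, k4⟩ := GV_step hv' hx'
  have hlen : v.length = v'.length := by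
    by_contra hcon
    rcases Nat.lt_or_gt_of_ne hcon with h | h
    · have h5 := convs_mono h1 (show v.length + 1 ≤ v'.length by omega)
      simp only at h5
      have h6 : ((convs x (v.length + 1)).1.1 : ℝ) ≤ (convs x v'.length).1.1 := by
        exact_mod_cast h5
      linarith
    · have h5 := convs_mono h1 (show v'.length + 1 ≤ v.length by omega)
      simp only at h5
      have h6 : ((convs x (v'.length + 1)).1.1 : ℝ) ≤ (convs x v.length).1.1 := by
        exact_mod_cast h5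
      linarith
  apply hne
  rw [← h2, ← k2, hlen]

lemma measurableSet_GV (N : ℝ) (v : List (ℕ × ℕ)) : MeasurableSet (GV N v) :=
  Finset.measurableSet_biUnion _ (fun _ _ => measurableSet_cyl _)

lemma good_mass {w : List (ℕ × ℕ)} {N : ℝ} (hN : ((st w).1.1 : ℝ) < N) :
    ENNReal.ofReal (1 / 1889568) * volume (cyl w) ≤ volume (⋃ v ∈ VV w N, GV N v) := by
  have hc : (VV w N).Countable := Set.to_countable _
  rw [measure_biUnion hc (GV_disjoint w N) (fun v _ => measurableSet_GV N v)]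
  calc ENNReal.ofReal (1 / 1889568) * volume (cyl w)
      ≤ ENNReal.ofReal (1 / 1889568) * volume (⋃ v ∈ VV w N, SV N v) := by
        gcongr
        exact cyl_subset hN
    _ ≤ ENNReal.ofReal (1 / 1889568) * ∑' v : VV w N, volume (SV N v) := by
        gcongr
        exact measure_biUnion_le volume hc _
    _ = ∑' v : VV w N, ENNReal.ofReal (1 / 1889568) * volume (SV N v) :=
        ENNReal.tsum_mul_left.symm
    _ ≤ _ := ENNReal.tsum_le_tsum fun v => one_step v.2.2.1 v.2.2.2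

/-- the region of a word -/
def KK (w : List (ℕ × ℕ)) : Set (ℝ × ℝ) := psiS (st w) '' (Icc (0 : ℝ) 1 ×ˢ Icc (0 : ℝ) 1)

lemma continuousOn_psiS {S} (hS : Good S) :
    ContinuousOn (psiS S) (Icc (0 : ℝ) 1 ×ˢ Icc (0 : ℝ) 1) := by
  intro t ht
  exact (hasFDerivAt_psiS S (den_pos' hS ht.1.1 ht.2.1).ne').continuousAt.continuousWithinAt

lemma isCompact_KK {w : List (ℕ × ℕ)} (hw : adw w) : IsCompact (KK w) :=
  (isCompact_Icc.prod isCompact_Icc).image_of_continuousOn (continuousOn_psiS (good_st hw))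

lemma volume_KK_le {w : List (ℕ × ℕ)} (hw : adw w) : volume (KK w) ≤ 108 * volume (cyl w) := by
  have hq : (0 : ℝ) < (st w).1.1 := by exact_mod_cast (good_st hw).1
  calc volume (KK w) ≤ ENNReal.ofReal (1 / ((st w).1.1 : ℝ) ^ 3) *
        volume (Icc (0 : ℝ) 1 ×ˢ Icc (0 : ℝ) 1) :=
        volume_image_le (good_st hw) (measurableSet_Icc.prod measurableSet_Icc)
          (fun t ht => ⟨ht.1.1, ht.2.1⟩)
    _ = ENNReal.ofReal (1 / ((st w).1.1 : ℝ) ^ 3) := by
        rw [Measure.volume_eq_prod, Measure.prod_prod, Real.volume_Icc]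
        simp
    _ = 108 * ENNReal.ofReal (1 / (108 * ((st w).1.1 : ℝ) ^ 3)) := by
        rw [← ENNReal.ofReal_ofNat, ← ENNReal.ofReal_mul (by norm_num)]
        congr 1
        field_simp
    _ ≤ _ := by
        gcongr
        exact le_cyl_all hw

lemma cyl_subset_KK {w : List (ℕ × ℕ)} (hw : adw w) : cyl w ⊆ KK w := by
  rintro x ⟨hx1, hx2⟩
  have h1 := hx1.iter w.length
  refine ⟨T^[w.length] x, ⟨⟨h1.1.le, h1.2.1.le⟩, ⟨h1.2.2.1.le, h1.2.2.2.1.le⟩⟩, ?_⟩
  rw [psiS_st hw h1.1.le h1.2.2.1.le]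
  have := hx1.psi_wd w.length
  rw [hx2] at this
  exact this

lemma volume_cyl_pos {w : List (ℕ × ℕ)} (hw : adw w) : 0 < volume (cyl w) := by
  have hq : (0 : ℝ) < (st w).1.1 := by exact_mod_cast (good_st hw).1
  refine lt_of_lt_of_le ?_ (le_cyl_all hw)
  rw [ENNReal.ofReal_pos]
  positivity

/-- **oscillation on cylinders** -/
theorem osc {w : List (ℕ × ℕ)} (hw : adw w) :
    ENNReal.ofReal (1 / 10 ^ 7) * volume (cyl w) ≤
      volume {x ∈ cyl w | ∃ i ≥ w.length, eps0 ≤ |ratio (convs x i).1 - ratio (st w).1|} := by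
  classical
  have hK := isCompact_KK hw
  have hKpos : 0 < volume (KK w) :=
    lt_of_lt_of_le (volume_cyl_pos hw) (measure_mono (cyl_subset_KK hw))
  obtain ⟨s0, hs0⟩ : ∃ s0, s0 = ratio (st w).1 := ⟨_, rfl⟩
  obtain ⟨N0, hN0⟩ := count_bad (KK w) hK hKpos s0 eps0 (by rw [hs0]; exact ratio_nonneg _)
    (by rw [hs0]; exact ratio_le (good_st hw)) (by unfold eps0; norm_num) (by unfold eps0; norm_num)
  obtain ⟨N, hN⟩ : ∃ N, N = max N0 (max 1 ((st w).1.1 + 1 : ℝ)) := ⟨_, rfl⟩
  have hN1 : N0 ≤ N := by rw [hN]; exact le_max_left _ _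
  have hN2 : 1 ≤ N := by rw [hN]; exact (le_max_left _ _).trans (le_max_right _ _)
  have hN3 : ((st w).1.1 : ℝ) < N := by
    have : ((st w).1.1 : ℝ) + 1 ≤ N := by
      rw [hN]; exact (le_max_right _ _).trans (le_max_right _ _)
    linarith
  -- facts on bad words
  have hBB : ∀ u ∈ BB w N s0, adw u ∧ u.getLast? = some (2, 3) ∧ N ≤ ((st u).1.1 : ℝ) ∧
      ((st u).1.1 : ℝ) ≤ 18 * N ∧
      (((st u).1.2.1 : ℝ) / (st u).1.1, ((st u).1.2.2 : ℝ) / (st u).1.1) ∈ KK w ∧
      |ratio (st u).1 - s0| < eps0 := by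
    rintro u ⟨v, ⟨⟨w1, hw1⟩, hv2, hv3⟩, l, hl, rfl, hu⟩
    obtain ⟨k1, k2, k3, k4, k5, k6⟩ := q_two hv2 hv3 hl
    have hadw := adw_two hv2 k1 k2
    refine ⟨hadw, by simp, k4, k5, ?_, hu⟩
    rw [← point_eq hadw, ← hw1, List.append_assoc, psiS_st_append hw le_rfl le_rfl]
    refine ⟨_, ?_, rfl⟩
    have h1 : adw (w1 ++ [l, (2, 3)]) := by
      rw [← hw1, List.append_assoc] at hadw
      exact adw_right hadw
    have h2 := (tip _ h1 (by simp)).1
    exact ⟨⟨h2.1.1.le, h2.1.2.le⟩, ⟨h2.2.1.le, h2.2.2.le⟩⟩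
  have hfin : volume (KK w) ≠ ⊤ := hK.measure_lt_top.ne
  -- the number of bad words
  have hcard : ∀ s : Finset (BB w N s0), (s.card : ℝ) ≤
      2 * 10 ^ 7 * eps0 * (volume (KK w)).toReal * N ^ 3 := by
    intro s
    have hinj : Set.InjOn (fun u : BB w N s0 => (st (u : List (ℕ × ℕ))).1) s := by
      intro u _ u' _ he
      simp only at he
      obtain ⟨a1, a2, _⟩ := hBB u u.2
      obtain ⟨b1, b2, _⟩ := hBB u' u'.2
      apply Subtype.ext
      apply tip_inj _ _ a1 b1 a2 b2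
      rw [point_eq a1, point_eq b1, he]
    rw [← Finset.card_image_of_injOn hinj]
    apply hN0 N hN1
    intro P hP
    rw [Finset.mem_image] at hP
    obtain ⟨u, _, rfl⟩ := hP
    obtain ⟨a1, a2, a3, a4, a5, a6⟩ := hBB u u.2
    exact ⟨a3, a4, a5, coprime_st (good_st a1), a6⟩
  -- the measure of the bad words
  have hbad : volume (⋃ u ∈ BB w N s0, cyl u) ≤ ENNReal.ofReal (1 / 10 ^ 7) * volume (cyl w) := by
    have hc : (BB w N s0).Countable := Set.to_countable _
    calc volume (⋃ u ∈ BB w N s0, cyl u) ≤ ∑' u : BB w N s0, volume (cyl u) :=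
          measure_biUnion_le volume hc _
      _ ≤ ENNReal.ofReal (2 * 10 ^ 7 * eps0) * volume (KK w) := by
          rw [ENNReal.tsum_eq_iSup_sum]
          apply iSup_le
          intro s
          calc ∑ u ∈ s, volume (cyl (u : List (ℕ × ℕ))) ≤ ∑ _u ∈ s, ENNReal.ofReal (1 / N ^ 3) := by
                apply Finset.sum_le_sum
                intro u _
                obtain ⟨a1, a2, a3, a4, a5, a6⟩ := hBB u u.2
                have h1 := cyl_le (u : List (ℕ × ℕ)) (E := univ) MeasurableSet.univ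
                have h2 : {x ∈ cyl (u : List (ℕ × ℕ)) | T^[(u : List (ℕ × ℕ)).length] x ∈
                    (univ : Set (ℝ × ℝ))} = cyl (u : List (ℕ × ℕ)) := by
                  ext x; simp
                rw [h2, univ_inter, volume_I2, mul_one] at h1
                refine h1.trans (ENNReal.ofReal_le_ofReal ?_)
                gcongr
            _ = ENNReal.ofReal (s.card * (1 / N ^ 3)) := by
                rw [Finset.sum_const, nsmul_eq_mul, ENNReal.ofReal_mul (by positivity),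
                  ENNReal.ofReal_natCast]
            _ ≤ ENNReal.ofReal (2 * 10 ^ 7 * eps0 * (volume (KK w)).toReal) := by
                apply ENNReal.ofReal_le_ofReal
                rw [mul_one_div, div_le_iff₀ (by positivity)]
                exact hcard s
            _ = _ := by
                rw [ENNReal.ofReal_mul (by unfold eps0; norm_num), ENNReal.ofReal_toReal hfin]
      _ ≤ ENNReal.ofReal (2 * 10 ^ 7 * eps0) * (108 * volume (cyl w)) := by
          gcongr
          exact volume_KK_le hw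
      _ = ENNReal.ofReal (2 * 10 ^ 7 * eps0 * 108) * volume (cyl w) := by
          rw [← mul_assoc]
          congr 1
          rw [ENNReal.ofReal_mul (p := 2 * 10 ^ 7 * eps0) (by unfold eps0; norm_num),
            ENNReal.ofReal_ofNat]
      _ ≤ _ := by
          gcongr
          unfold eps0
          norm_num
  -- conclusion
  have hsub : (⋃ v ∈ VV w N, GV N v) \ (⋃ u ∈ BB w N s0, cyl u) ⊆
      {x ∈ cyl w | ∃ i ≥ w.length, eps0 ≤ |ratio (convs x i).1 - ratio (st w).1|} := by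
    rintro x ⟨hx1, hx2⟩
    rw [mem_iUnion₂] at hx1
    obtain ⟨v, hv, hx1⟩ := hx1
    have hx1' := hx1
    unfold GV at hx1'
    rw [mem_iUnion₂] at hx1'
    obtain ⟨l, hl, hx3⟩ := hx1'
    obtain ⟨w1, hw1⟩ := hv.1
    have hxw : x ∈ cyl w := by
      have h1 := (mem_cyl_append hx3).1
      rw [← hw1] at h1
      exact (mem_cyl_append h1).1
    refine ⟨hxw, (v ++ [l, (2, 3)]).length, ?_, ?_⟩
    · rw [← hw1]; simp only [List.length_append]; omega
    · rw [convs_eq, hx3.2]
      by_contra hcon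
      push Not at hcon
      apply hx2
      rw [mem_iUnion₂]
      exact ⟨_, ⟨v, hv, l, hl, rfl, by rw [hs0]; exact hcon⟩, hx3⟩
  have hgood := good_mass hN3
  have hcylfin : volume (cyl w) ≠ ⊤ := ne_top_of_le_ne_top hfin (measure_mono (cyl_subset_KK hw))
  calc ENNReal.ofReal (1 / 10 ^ 7) * volume (cyl w)
      ≤ ENNReal.ofReal (1 / 1889568) * volume (cyl w) -
        ENNReal.ofReal (1 / 10 ^ 7) * volume (cyl w) := by
        rw [← ENNReal.sub_mul (fun _ _ => hcylfin), ← ENNReal.ofReal_sub _ (by norm_num)]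
        gcongr
        norm_num
    _ ≤ volume (⋃ v ∈ VV w N, GV N v) - volume (⋃ u ∈ BB w N s0, cyl u) :=
        tsub_le_tsub hgood hbad
    _ ≤ volume ((⋃ v ∈ VV w N, GV N v) \ (⋃ u ∈ BB w N s0, cyl u)) := le_measure_sdiff
    _ ≤ _ := measure_mono hsub

end Pool.Agent.H19.JP
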