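import Pool.Agent.H19.JP.Meas
import Pool.Agent.H19.JP.Count3

/-!
Words ending with the letter `(2, 3)` are determined by their last convergent.
-/

set_option autoImplicit false

namespace Pool.Agent.H19.JP

open MeasureTheory Set

lemma tip (u : List (ℕ × ℕ)) (hu : adw u) (hl : u.getLast? = some (2, 3)) :
    psi u (0, 0) ∈ I2 ∧ ∀ l ∈ u.head?, 1 ≤ l.1 → (psi u (0, 0)).1 < (psi u (0, 0)).2 := by
  induction u with
  | nil => simp at hl
  | cons l u ih =>
    cases u with
    | nil =>
      simp only [List.getLast?_singleton, Option.some.injEq] at hl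
      subst hl
      simp only [psi, psi1, I2, mem_prod, mem_Ioo]
      norm_num
    | cons l'' u =>
      have hl' : (l'' :: u).getLast? = some (2, 3) := by
        rw [List.getLast?_cons_cons] at hl; exact hl
      obtain ⟨h1, h2⟩ := ih hu.2 hl'
      obtain ⟨t, ht⟩ : ∃ t, t = psi (l'' :: u) (0, 0) := ⟨_, rfl⟩
      have hx : psi (l :: l'' :: u) (0, 0) = psi1 l t := by rw [ht]; rfl
      rw [hx]
      rw [← ht] at h1 h2
      obtain ⟨⟨k1, k2⟩, ⟨k3, k4⟩⟩ := h1
      obtain ⟨⟨j1, j2, j3⟩, j4⟩ := hu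
      have hb : (1 : ℝ) ≤ l.2 := by exact_mod_cast j1
      have hbt : (0 : ℝ) < l.2 + t.2 := by linarith
      have ha : (0 : ℝ) ≤ l.1 := by positivity
      unfold psi1
      refine ⟨⟨⟨by positivity, ?_⟩, ⟨by positivity, ?_⟩⟩, ?_⟩
      · simp only
        rw [div_lt_one hbt]; linarith
      · simp only
        rw [div_lt_one hbt]
        by_cases h : l.1 = l.2
        · have := h2 l'' (by simp) (j3 h l'' (by simp))
          rw [h]; linarith
        · have : l.1 + 1 ≤ l.2 := by omega
          have : (l.1 : ℝ) + 1 ≤ l.2 := by exact_mod_cast this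
          linarith
      · intro l' hl1 hl2
        simp only [List.head?_cons, Option.mem_def, Option.some.injEq] at hl1
        subst hl1
        simp only
        have : (1 : ℝ) ≤ l.1 := by exact_mod_cast hl2
        gcongr
        linarith

lemma tip_inj (u : List (ℕ × ℕ)) : ∀ u' : List (ℕ × ℕ), adw u → adw u' →
    u.getLast? = some (2, 3) → u'.getLast? = some (2, 3) → psi u (0, 0) = psi u' (0, 0) →
    u = u' := by
  induction u with
  | nil => intro u' _ _ hl; simp at hl
  | cons l v ih =>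
    intro u' hu hu' hl hl' he
    cases u' with
    | nil => simp at hl'
    | cons l' v' =>
      have key : ∀ (l : ℕ × ℕ) (v : List (ℕ × ℕ)), adw (l :: v) →
          (l :: v).getLast? = some (2, 3) → (v ≠ [] → psi v (0, 0) ∈ I2) ∧
          dig (psi (l :: v) (0, 0)) = l ∧ T (psi (l :: v) (0, 0)) = psi v (0, 0) := by
        intro l v hu hl
        have h1 : v ≠ [] → psi v (0, 0) ∈ I2 := by
          intro hv
          cases v with
          | nil => exact absurd rfl hv
          | cons l'' v =>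
            rw [List.getLast?_cons_cons] at hl
            exact (tip _ hu.2 hl).1
        have h2 : 0 ≤ (psi v (0, 0)).1 ∧ (psi v (0, 0)).1 < 1 ∧ 0 ≤ (psi v (0, 0)).2 ∧
            (psi v (0, 0)).2 < 1 := by
          by_cases hv : v = []
          · subst hv; simp [psi]
          · obtain ⟨⟨k1, k2⟩, ⟨k3, k4⟩⟩ := h1 hv
            exact ⟨k1.le, k2, k3.le, k4⟩
        exact ⟨h1, dig_psi1 hu.1.1 h2.1 h2.2.1 h2.2.2.1 h2.2.2.2⟩
      obtain ⟨a1, a2, a3⟩ := key l v hu hl
      obtain ⟨b1, b2, b3⟩ := key l' v' hu' hl'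
      have hll : l = l' := by rw [← a2, ← b2, he]
      have htt : psi v (0, 0) = psi v' (0, 0) := by rw [← a3, ← b3, he]
      have hvv : v = v' := by
        cases v with
        | nil =>
          cases v' with
          | nil => rfl
          | cons l'' v'' =>
            exfalso
            have := (b1 (by simp)).1.1
            rw [← htt] at this
            simp [psi] at this
        | cons l'' v'' =>
          cases v' with
          | nil =>
            exfalso
            have := (a1 (by simp)).1.1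
            rw [htt] at this
            simp [psi] at this
          | cons l''' v''' =>
            rw [List.getLast?_cons_cons] at hl hl'
            exact ih _ hu.2 hu'.2 hl hl' htt
      rw [hll, hvv]

lemma point_eq {u : List (ℕ × ℕ)} (hu : adw u) :
    psi u (0, 0) = (((st u).1.2.1 : ℝ) / (st u).1.1, ((st u).1.2.2 : ℝ) / (st u).1.1) := by
  rw [← psiS_st hu le_rfl le_rfl]
  simp [psiS, den]

lemma coprime_st {S : (ℤ × ℤ × ℤ) × (ℤ × ℤ × ℤ) × (ℤ × ℤ × ℤ)} (hS : Good S) :
    ∃ a b e : ℤ, a * S.1.2.1 + b * S.1.2.2 + e * S.1.1 = 1 := by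
  have h := hS.2.2.2.2.2
  unfold det at h
  refine ⟨S.2.1.1 * S.2.2.2.2 - S.2.2.1 * S.2.1.2.2, S.2.2.1 * S.2.1.2.1 - S.2.1.1 * S.2.2.2.1,
    -(S.2.1.2.1 * S.2.2.2.2 - S.2.1.2.2 * S.2.2.2.1), ?_⟩
  linear_combination (-1 : ℤ) * h

/-- the normalised length of a shortest vector -/
noncomputable def ratio (P : ℤ × ℤ × ℤ) : ℝ := lam P.1 P.2.1 P.2.2 / Real.sqrt P.1

lemma ratio_nonneg (P : ℤ × ℤ × ℤ) : 0 ≤ ratio P :=
  div_nonneg (lam_nonneg _ _ _) (Real.sqrt_nonneg _)

lemma ratio_le {S : (ℤ × ℤ × ℤ) × (ℤ × ℤ × ℤ) × (ℤ × ℤ × ℤ)} (hS : Good S) : ratio S.1 ≤ 2 := by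
  have hq : (0 : ℝ) < S.1.1 := by exact_mod_cast hS.1
  unfold ratio
  rw [div_le_iff₀ (Real.sqrt_pos.mpr hq)]
  refine (lam_le hS.1 (coprime_st hS)).trans ?_
  rw [Real.sqrt_mul (by norm_num)]
  have : Real.sqrt 2 ≤ 2 := by
    rw [Real.sqrt_le_left (by norm_num)]
    norm_num
  gcongr

end Pool.Agent.H19.JP
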